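import Mathlib

set_option autoImplicit false

/-! Powers of an integral over the line by the distance of two points. -/

namespace Pool.Agent.K4H46.US

open MeasureTheory Set Metric
open scoped ENNReal NNReal

theorem radial_small {ν : Measure ℝ} (hν : ∀ x, ν {x} = 0) (t0 : ℝ) (s : ℝ≥0∞) :
    ν {t | ν (closedBall t0 |t - t0|) < s} ≤ s := by
  set G : ℝ → ℝ≥0∞ := fun ρ => ν (closedBall t0 ρ) with hG
  have hGm : Monotone G := fun a b hab => measure_mono (closedBall_subset_closedBall hab)
  set Q : Set ℚ := {q | G q < s} with hQ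
  set S : Set ℝ := {t | G |t - t0| < s} with hS
  set S' : Set ℝ := ⋃ q ∈ Q, closedBall t0 (q : ℝ) with hS'
  have h1 : ν S' ≤ s := by
    have hdir : DirectedOn (Function.onFun (· ⊆ ·) fun q : ℚ => closedBall t0 (q : ℝ)) Q := by
      intro a ha b hb
      rcases le_total a b with h | h
      · have h' : (a : ℝ) ≤ b := by exact_mod_cast h
        exact ⟨b, hb, closedBall_subset_closedBall h', Subset.rfl⟩
      · have h' : (b : ℝ) ≤ a := by exact_mod_cast h
        exact ⟨a, ha, Subset.rfl, closedBall_subset_closedBall h'⟩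
    rw [hS', measure_biUnion_eq_iSup (Set.to_countable Q) hdir]
    exact iSup₂_le fun q hq => hq.le
  have h2 : ν (S \ S') = 0 := by
    by_cases hne : (S \ S').Nonempty
    · obtain ⟨t, htS, htS'⟩ := hne
      have key : ∀ u ∈ S \ S', ∀ v ∈ S \ S', ¬ |u - t0| < |v - t0| := by
        rintro u ⟨hu, hu'⟩ v ⟨hv, -⟩ huv
        obtain ⟨q, hq1, hq2⟩ := exists_rat_btwn huv
        apply hu'
        refine mem_biUnion (x := q) ?_ ?_
        · show G q < s
          exact lt_of_le_of_lt (hGm hq2.le) hv
        · rw [mem_closedBall, Real.dist_eq]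
          exact hq1.le
      have hsub : S \ S' ⊆ {t0 - |t - t0|} ∪ {t0 + |t - t0|} := by
        intro u hu
        have e1 : |u - t0| = |t - t0| := by
          apply le_antisymm
          · exact not_lt.1 (key t ⟨htS, htS'⟩ u hu)
          · exact not_lt.1 (key u hu t ⟨htS, htS'⟩)
        rcases abs_choice (u - t0) with h | h
        · right
          rw [mem_singleton_iff, ← e1, h]; ring
        · left
          rw [mem_singleton_iff, ← e1, h]; ring
      refine measure_mono_null hsub ?_
      rw [measure_union_null_iff]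
      exact ⟨hν _, hν _⟩
    · rw [not_nonempty_iff_eq_empty.1 hne, measure_empty]
  calc ν S ≤ ν (S' ∪ (S \ S')) := measure_mono fun x hx => by
        by_cases h : x ∈ S'
        · exact Or.inl h
        · exact Or.inr ⟨hx, h⟩
    _ ≤ ν S' + ν (S \ S') := measure_union_le _ _
    _ ≤ s := by rw [h2, add_zero]; exact h1

/-- the power of an integral -/
theorem med {g : ℝ → ℝ≥0∞} (hg : Measurable g) (hfin : ∫⁻ t, g t ≠ ∞) (t0 : ℝ) (m : ℕ) :
    (∫⁻ t, g t) ^ (m + 1) ≤
      2 ^ (m + 1) * ∫⁻ t, g t * (∫⁻ u in closedBall t0 |t - t0|, g u) ^ m := by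
  set ν : Measure ℝ := volume.withDensity g with hν
  set M : ℝ≥0∞ := ∫⁻ t, g t with hM
  have hνM : ν univ = M := by rw [hν, withDensity_apply _ MeasurableSet.univ, setLIntegral_univ]
  have hν0 : ∀ x, ν {x} = 0 := by
    intro x
    rw [hν, withDensity_apply _ (measurableSet_singleton x)]
    exact setLIntegral_measure_zero _ _ Real.volume_singleton
  have hGe : ∀ ρ, ν (closedBall t0 ρ) = ∫⁻ u in closedBall t0 ρ, g u := fun ρ => by
    rw [hν, withDensity_apply _ measurableSet_closedBall]
  have hGm : Monotone fun ρ => ν (closedBall t0 ρ) :=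
    fun a b hab => measure_mono (closedBall_subset_closedBall hab)
  set S : Set ℝ := {t | ν (closedBall t0 |t - t0|) < M / 2} with hS
  have hm1 : Measurable fun t : ℝ => ν (closedBall t0 |t - t0|) :=
    hGm.measurable.comp (by fun_prop : Measurable fun t : ℝ => |t - t0|)
  have hSm : MeasurableSet S := measurableSet_lt hm1 measurable_const
  have h1 := radial_small hν0 t0 (M / 2)
  rw [← hS] at h1
  have h2 : M / 2 ≤ ν Sᶜ := by
    rw [measure_compl hSm (ne_top_of_le_ne_top (by rw [hνM]; exact hfin) (measure_mono (subset_univ S))),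
      hνM]
    calc M / 2 = M - M / 2 := (ENNReal.sub_half hfin).symm
      _ ≤ _ := tsub_le_tsub_left h1 _
  have h3 : (M / 2) ^ (m + 1) ≤ ∫⁻ t, g t * (∫⁻ u in closedBall t0 |t - t0|, g u) ^ m := by
    calc (M / 2) ^ (m + 1) = (M / 2) * (M / 2) ^ m := by rw [pow_succ, mul_comm]
      _ ≤ ν Sᶜ * (M / 2) ^ m := mul_le_mul_left h2 _
      _ = ∫⁻ t in Sᶜ, g t * (M / 2) ^ m := by
          rw [lintegral_mul_const _ hg, hν, withDensity_apply _ hSm.compl]
      _ ≤ ∫⁻ t in Sᶜ, g t * (∫⁻ u in closedBall t0 |t - t0|, g u) ^ m := by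
          refine setLIntegral_mono' hSm.compl fun t ht => ?_
          refine mul_le_mul_right (pow_le_pow_left₀ zero_le ?_ m) _
          rw [← hGe]
          exact not_lt.1 ht
      _ ≤ _ := setLIntegral_le_lintegral _ _
  calc M ^ (m + 1) = (2 * (M / 2)) ^ (m + 1) := by
        rw [ENNReal.mul_div_cancel (by norm_num) (by norm_num)]
    _ = 2 ^ (m + 1) * (M / 2) ^ (m + 1) := mul_pow _ _ _
    _ ≤ _ := mul_le_mul_right h3 _

end Pool.Agent.K4H46.US
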