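import Mathlib

set_option autoImplicit false

/-! A bilinear bound on the line. -/

namespace Pool.Agent.K4H46.US

open MeasureTheory Set Metric
open scoped ENNReal NNReal

/-- powers of integrals -/
theorem pow_lint {X : Type*} [MeasurableSpace X] (μ : Measure X) {w : X → ℝ≥0∞} (hw : Measurable w)
    (k : ℕ) : (∫⁻ x, w x ∂μ) ^ (k + 1) ≤ μ univ ^ k * ∫⁻ x, w x ^ (k + 1) ∂μ := by
  rcases Nat.eq_zero_or_pos k with rfl | hk
  · simp
  have hk0 : (0 : ℝ) < k := by exact_mod_cast hk
  have hpq : ((k : ℝ) + 1).HolderConjugate (((k : ℝ) + 1) / k) := by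
    rw [Real.holderConjugate_iff]
    refine ⟨by linarith, ?_⟩
    field_simp
    ring
  have h := ENNReal.lintegral_mul_le_Lp_mul_Lq μ hpq hw.aemeasurable
    (measurable_const (a := (1 : ℝ≥0∞))).aemeasurable
  simp only [Pi.mul_apply, mul_one, ENNReal.one_rpow, lintegral_const, one_mul] at h
  have h2 := pow_le_pow_left₀ zero_le h (k + 1)
  refine h2.trans (le_of_eq ?_)
  rw [mul_pow, mul_comm]
  congr 1
  · rw [← ENNReal.rpow_natCast, ← ENNReal.rpow_mul]
    have : 1 / (((k : ℝ) + 1) / k) * ((k + 1 : ℕ) : ℝ) = (k : ℝ) := by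
      push_cast
      field_simp
    rw [this, ENNReal.rpow_natCast]
  · rw [← ENNReal.rpow_natCast, ← ENNReal.rpow_mul]
    have : 1 / ((k : ℝ) + 1) * ((k + 1 : ℕ) : ℝ) = 1 := by
      push_cast
      field_simp
    rw [this, ENNReal.rpow_one]
    refine lintegral_congr fun x => ?_
    rw [← ENNReal.rpow_natCast]
    push_cast
    rfl

theorem ab_le (a b : ℝ≥0∞) (k : ℕ) : a * b ^ k ≤ a ^ (k + 1) + b ^ (k + 1) := by
  rcases le_total a b with h | h
  · calc a * b ^ k ≤ b * b ^ k := mul_le_mul_left h _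
      _ = b ^ (k + 1) := by rw [pow_succ, mul_comm]
      _ ≤ _ := le_add_self
  · calc a * b ^ k ≤ a * a ^ k := mul_le_mul_right (pow_le_pow_left₀ zero_le h k) _
      _ = a ^ (k + 1) := by rw [pow_succ, mul_comm]
      _ ≤ _ := le_self_add

theorem ball_meas2 {w : ℝ → ℝ≥0∞} (hw : Measurable w) (l : ℝ) :
    Measurable fun t => ∫⁻ u in closedBall t l, w u := by
  have e : ∀ t, ∫⁻ u in closedBall t l, w u =
      ∫⁻ u, {p : ℝ × ℝ | |p.2 - p.1| ≤ l}.indicator (fun p => w p.2) (t, u) := by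
    intro t
    rw [← lintegral_indicator measurableSet_closedBall]
    refine lintegral_congr fun u => ?_
    by_cases h : |u - t| ≤ l
    · rw [indicator_of_mem (show u ∈ closedBall t l by rw [mem_closedBall, Real.dist_eq]; exact h),
        indicator_of_mem (show (t, u) ∈ {p : ℝ × ℝ | |p.2 - p.1| ≤ l} from h)]
    · rw [indicator_of_notMem (fun hh => h (by rw [mem_closedBall, Real.dist_eq] at hh; exact hh)),
        indicator_of_notMem (show (t, u) ∉ {p : ℝ × ℝ | |p.2 - p.1| ≤ l} from h)]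
  simp_rw [e]
  have hs : MeasurableSet {p : ℝ × ℝ | |p.2 - p.1| ≤ l} :=
    measurableSet_le (by fun_prop) measurable_const
  exact Measurable.lintegral_prod_right' ((hw.comp measurable_snd).indicator hs)

theorem swap_ball {w : ℝ → ℝ≥0∞} (hw : Measurable w) {l : ℝ} (hl : 0 ≤ l) :
    ∫⁻ t, ∫⁻ u in closedBall t l, w u = ENNReal.ofReal (2 * l) * ∫⁻ u, w u := by
  have hs : MeasurableSet {p : ℝ × ℝ | |p.2 - p.1| ≤ l} :=
    measurableSet_le (by fun_prop) measurable_const
  have e : ∀ t, ∫⁻ u in closedBall t l, w u =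
      ∫⁻ u, {p : ℝ × ℝ | |p.2 - p.1| ≤ l}.indicator (fun p => w p.2) (t, u) := by
    intro t
    rw [← lintegral_indicator measurableSet_closedBall]
    refine lintegral_congr fun u => ?_
    by_cases h : |u - t| ≤ l
    · rw [indicator_of_mem (show u ∈ closedBall t l by rw [mem_closedBall, Real.dist_eq]; exact h),
        indicator_of_mem (show (t, u) ∈ {p : ℝ × ℝ | |p.2 - p.1| ≤ l} from h)]
    · rw [indicator_of_notMem (fun hh => h (by rw [mem_closedBall, Real.dist_eq] at hh; exact hh)),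
        indicator_of_notMem (show (t, u) ∉ {p : ℝ × ℝ | |p.2 - p.1| ≤ l} from h)]
  simp_rw [e]
  have hjm : Measurable fun p : ℝ × ℝ => {p : ℝ × ℝ | |p.2 - p.1| ≤ l}.indicator (fun p => w p.2) p :=
    (hw.comp measurable_snd).indicator hs
  rw [lintegral_lintegral_swap (f := fun t u =>
    {p : ℝ × ℝ | |p.2 - p.1| ≤ l}.indicator (fun p => w p.2) (t, u)) hjm.aemeasurable,
    ← lintegral_const_mul _ hw]
  refine lintegral_congr fun u => ?_
  have e2 : ∀ t, {p : ℝ × ℝ | |p.2 - p.1| ≤ l}.indicator (fun p => w p.2) (t, u) =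
      (closedBall u l).indicator (fun _ => w u) t := by
    intro t
    by_cases h : |u - t| ≤ l
    · rw [indicator_of_mem (show t ∈ closedBall u l by
        rw [mem_closedBall, Real.dist_eq, abs_sub_comm]; exact h),
        indicator_of_mem (show (t, u) ∈ {p : ℝ × ℝ | |p.2 - p.1| ≤ l} from h)]
    · rw [indicator_of_notMem (show (t, u) ∉ {p : ℝ × ℝ | |p.2 - p.1| ≤ l} from h),
        indicator_of_notMem (show t ∉ closedBall u l by
          rw [mem_closedBall, Real.dist_eq, abs_sub_comm]; exact h)]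
  simp_rw [e2]
  rw [lintegral_indicator measurableSet_closedBall, setLIntegral_const, Real.volume_closedBall,
    mul_comm]

/-- the moment of the averages -/
theorem lemY {w : ℝ → ℝ≥0∞} (hw : Measurable w) (k : ℕ) {l : ℝ} (hl : 0 < l) :
    ∫⁻ t, w t * (∫⁻ u in closedBall t l, w u) ^ (k + 1) ≤
      2 * ENNReal.ofReal (2 * l) ^ (k + 1) * ∫⁻ t, w t ^ (k + 2) := by
  set L : ℝ≥0∞ := ENNReal.ofReal (2 * l) with hL
  have hL0 : L ≠ 0 := by
    rw [hL, ne_eq, ENNReal.ofReal_eq_zero, not_le]; positivity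
  have hLt : L ≠ ∞ := ENNReal.ofReal_ne_top
  set W : ℝ → ℝ≥0∞ := fun t => ∫⁻ u in closedBall t l, w u with hW
  have hWm : Measurable W := ball_meas2 hw l
  have h1 : ∀ t, w t * W t ^ (k + 1) ≤ L ^ (k + 1) * w t ^ (k + 2) +
      L⁻¹ * W t ^ (k + 2) := by
    intro t
    have h := ab_le (w t) (L⁻¹ * W t) (k + 1)
    have h2 := mul_le_mul_right h (L ^ (k + 1))
    have e1 : L ^ (k + 1) * (w t * (L⁻¹ * W t) ^ (k + 1)) = w t * W t ^ (k + 1) := by
      calc L ^ (k + 1) * (w t * (L⁻¹ * W t) ^ (k + 1)) =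
          (L * L⁻¹) ^ (k + 1) * (w t * W t ^ (k + 1)) := by rw [mul_pow, mul_pow]; ring
        _ = _ := by rw [ENNReal.mul_inv_cancel hL0 hLt, one_pow, one_mul]
    have e2 : L ^ (k + 1) * (L⁻¹ * W t) ^ (k + 1 + 1) = L⁻¹ * W t ^ (k + 2) := by
      calc L ^ (k + 1) * (L⁻¹ * W t) ^ (k + 1 + 1) =
          (L * L⁻¹) ^ (k + 1) * (L⁻¹ * W t ^ (k + 2)) := by rw [mul_pow, mul_pow]; ring
        _ = _ := by rw [ENNReal.mul_inv_cancel hL0 hLt, one_pow, one_mul]
    rw [e1, mul_add, e2] at h2
    exact h2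
  have h3 : ∀ t, W t ^ (k + 2) ≤ L ^ (k + 1) * ∫⁻ u in closedBall t l, w u ^ (k + 2) := by
    intro t
    have h := pow_lint (volume.restrict (closedBall t l)) hw (k + 1)
    rwa [Measure.restrict_apply_univ, Real.volume_closedBall, ← hL] at h
  calc ∫⁻ t, w t * W t ^ (k + 1) ≤ ∫⁻ t, (L ^ (k + 1) * w t ^ (k + 2) +
        L⁻¹ * (L ^ (k + 1) * ∫⁻ u in closedBall t l, w u ^ (k + 2))) :=
        lintegral_mono fun t => (h1 t).trans (add_le_add le_rfl (mul_le_mul_right (h3 t) _))
    _ = L ^ (k + 1) * (∫⁻ t, w t ^ (k + 2)) + L⁻¹ * (L ^ (k + 1) * (L * ∫⁻ t, w t ^ (k + 2))) := by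
        rw [lintegral_add_left ((hw.pow_const _).const_mul _), lintegral_const_mul _ (hw.pow_const _),
          lintegral_const_mul' _ _ (ENNReal.inv_ne_top.2 hL0),
          lintegral_const_mul' _ _ (ENNReal.pow_ne_top hLt), swap_ball (hw.pow_const _) hl.le, ← hL]
    _ = L ^ (k + 1) * (∫⁻ t, w t ^ (k + 2)) + (L⁻¹ * L) * (L ^ (k + 1) * ∫⁻ t, w t ^ (k + 2)) := by
        ring
    _ = _ := by
        rw [ENNReal.inv_mul_cancel hL0 hLt, one_mul]
        ring

/-- the bilinear form with the kernel `|t - t'|^{-(m + 1)}` and the averages -/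
theorem dyad {w : ℝ → ℝ≥0∞} (hw : Measurable w) {m J : ℕ} {N P : ℝ} (hN : 0 < N) (hP : 0 ≤ P)
    {A : ℝ} (hA : 0 ≤ A) (hAP : A * N ^ (m + 1) ≤ P) {K : ℝ → ℝ → ℝ≥0∞}
    (h1 : ∀ t t', |t' - t| ≤ N → K t t' ≤ ENNReal.ofReal A)
    (h2 : ∀ t t', N < |t' - t| → K t t' ≤ ENNReal.ofReal (P / |t' - t| ^ (m + 1)))
    (h3 : ∀ t t', 2 ^ J * N < |t' - t| → K t t' = 0) :
    ∫⁻ t, w t * ∫⁻ t', w t' * (∫⁻ u in closedBall t |t' - t|, w u) ^ m * K t t' ≤
      ENNReal.ofReal (2 * 4 ^ (m + 1) * P * (J + 1)) * ∫⁻ t, w t ^ (m + 2) := by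
  set W : ℝ → ℝ → ℝ≥0∞ := fun l t => ∫⁻ u in closedBall t l, w u with hW
  have hWmono : ∀ t, Monotone fun l => W l t := fun t a b hab =>
    lintegral_mono_set (closedBall_subset_closedBall hab)
  -- the pointwise bound
  have hpt : ∀ t t', w t' * W |t' - t| t ^ m * K t t' ≤
      (closedBall t N).indicator w t' * (W N t ^ m * ENNReal.ofReal A) +
      ∑ j ∈ Finset.range J, (closedBall t (2 ^ (j + 1) * N)).indicator w t' *
        (W (2 ^ (j + 1) * N) t ^ m * ENNReal.ofReal (P / (2 ^ j * N) ^ (m + 1))) := by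
    intro t t'
    rcases le_or_gt |t' - t| N with h | h
    · refine le_trans ?_ le_self_add
      rw [indicator_of_mem (show t' ∈ closedBall t N by rw [mem_closedBall, Real.dist_eq]; exact h),
        mul_assoc]
      exact mul_le_mul_right (mul_le_mul' (pow_le_pow_left₀ zero_le (hWmono t h) m) (h1 t t' h)) _
    rcases lt_or_ge (2 ^ J * N) |t' - t| with h' | h'
    · rw [h3 t t' h', mul_zero]; exact zero_le
    -- find the scale
    obtain ⟨j, hj, hj1, hj2⟩ : ∃ j < J, 2 ^ j * N < |t' - t| ∧ |t' - t| ≤ 2 ^ (j + 1) * N := by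
      have hex : ∃ k, |t' - t| ≤ 2 ^ k * N := ⟨J, h'⟩
      classical
      set k := Nat.find hex with hk
      have hk1 := Nat.find_spec hex
      rw [← hk] at hk1
      have hk0 : k ≠ 0 := by
        intro h0
        rw [h0, pow_zero, one_mul] at hk1
        exact absurd hk1 (not_le.2 h)
      have hkJ : k ≤ J := Nat.find_min' hex h'
      refine ⟨k - 1, by omega, ?_, ?_⟩
      · have := Nat.find_min hex (m := k - 1) (by omega)
        exact not_le.1 this
      · have : k - 1 + 1 = k := by omega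
        rw [this]; exact hk1
    refine le_trans ?_ le_add_self
    refine le_trans ?_ (Finset.single_le_sum (fun _ _ => zero_le) (Finset.mem_range.2 hj))
    rw [indicator_of_mem (show t' ∈ closedBall t (2 ^ (j + 1) * N) by
      rw [mem_closedBall, Real.dist_eq]; exact hj2), mul_assoc]
    refine mul_le_mul_right (mul_le_mul' (pow_le_pow_left₀ zero_le (hWmono t hj2) m)
      ((h2 t t' h).trans (ENNReal.ofReal_le_ofReal ?_))) _
    have h4 : 0 < 2 ^ j * N := by positivity
    gcongr
  have hint : ∀ t l (c : ℝ≥0∞), ∫⁻ t', (closedBall t l).indicator w t' * c = W l t * c := by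
    intro t l c
    rw [lintegral_mul_const _ (hw.indicator measurableSet_closedBall),
      lintegral_indicator measurableSet_closedBall]
  have hWm : ∀ l, Measurable (W l) := fun l => ball_meas2 hw l
  have hin : ∀ t, ∫⁻ t', w t' * W |t' - t| t ^ m * K t t' ≤
      W N t ^ (m + 1) * ENNReal.ofReal A +
      ∑ j ∈ Finset.range J, W (2 ^ (j + 1) * N) t ^ (m + 1) *
        ENNReal.ofReal (P / (2 ^ j * N) ^ (m + 1)) := by
    intro t
    refine (lintegral_mono (hpt t)).trans (le_of_eq ?_)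
    rw [lintegral_add_left ((hw.indicator measurableSet_closedBall).mul_const _), hint,
      lintegral_finsetSum _ fun j _ => (hw.indicator measurableSet_closedBall).mul_const _]
    congr 1
    · rw [pow_succ]; ring
    · refine Finset.sum_congr rfl fun j _ => ?_
      rw [hint, pow_succ]; ring
  calc ∫⁻ t, w t * ∫⁻ t', w t' * (∫⁻ u in closedBall t |t' - t|, w u) ^ m * K t t'
      ≤ ∫⁻ t, (w t * W N t ^ (m + 1) * ENNReal.ofReal A +
        ∑ j ∈ Finset.range J, w t * W (2 ^ (j + 1) * N) t ^ (m + 1) *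
        ENNReal.ofReal (P / (2 ^ j * N) ^ (m + 1))) := by
        refine lintegral_mono fun t => (mul_le_mul_right (hin t) _).trans (le_of_eq ?_)
        rw [mul_add, Finset.mul_sum]
        congr 1
        · ring
        · refine Finset.sum_congr rfl fun j _ => ?_
          ring
    _ = (∫⁻ t, w t * W N t ^ (m + 1)) * ENNReal.ofReal A +
        ∑ j ∈ Finset.range J, (∫⁻ t, w t * W (2 ^ (j + 1) * N) t ^ (m + 1)) *
        ENNReal.ofReal (P / (2 ^ j * N) ^ (m + 1)) := by
        have hm1 : ∀ l, Measurable fun t => w t * W l t ^ (m + 1) := fun l =>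
          hw.mul ((hWm l).pow_const _)
        rw [lintegral_add_left ((hm1 N).mul_const _), lintegral_mul_const _ (hm1 N),
          lintegral_finsetSum _ fun j _ => (hm1 _).mul_const _]
        congr 1
        refine Finset.sum_congr rfl fun j _ => ?_
        rw [lintegral_mul_const _ (hm1 _)]
    _ ≤ (2 * ENNReal.ofReal (2 * N) ^ (m + 1) * ∫⁻ t, w t ^ (m + 2)) * ENNReal.ofReal A +
        ∑ j ∈ Finset.range J, (2 * ENNReal.ofReal (2 * (2 ^ (j + 1) * N)) ^ (m + 1) *
        ∫⁻ t, w t ^ (m + 2)) * ENNReal.ofReal (P / (2 ^ j * N) ^ (m + 1)) := by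
        refine add_le_add (mul_le_mul_left (lemY hw m hN) _) (Finset.sum_le_sum fun j _ =>
          mul_le_mul_left (lemY hw m (by positivity)) _)
    _ ≤ ENNReal.ofReal (2 * 4 ^ (m + 1) * P) * (∫⁻ t, w t ^ (m + 2)) +
        ∑ j ∈ Finset.range J, ENNReal.ofReal (2 * 4 ^ (m + 1) * P) * (∫⁻ t, w t ^ (m + 2)) := by
        refine add_le_add ?_ (Finset.sum_le_sum fun j _ => ?_)
        · calc (2 * ENNReal.ofReal (2 * N) ^ (m + 1) * ∫⁻ t, w t ^ (m + 2)) * ENNReal.ofReal A
              = (ENNReal.ofReal 2 * ENNReal.ofReal ((2 * N) ^ (m + 1)) * ENNReal.ofReal A) *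
                ∫⁻ t, w t ^ (m + 2) := by
                rw [ENNReal.ofReal_pow (by positivity)]
                norm_num
                ring
            _ ≤ _ := by
                refine mul_le_mul_left ?_ _
                rw [← ENNReal.ofReal_mul (by norm_num), ← ENNReal.ofReal_mul (by positivity)]
                refine ENNReal.ofReal_le_ofReal ?_
                rw [mul_pow]
                have e4 : (2:ℝ) ^ (m + 1) ≤ 4 ^ (m + 1) := pow_le_pow_left₀ (by norm_num) (by norm_num) _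
                calc 2 * (2 ^ (m + 1) * N ^ (m + 1)) * A = 2 * 2 ^ (m + 1) * (A * N ^ (m + 1)) := by ring
                  _ ≤ 2 * 4 ^ (m + 1) * P := by gcongr
        · calc (2 * ENNReal.ofReal (2 * (2 ^ (j + 1) * N)) ^ (m + 1) *
                ∫⁻ t, w t ^ (m + 2)) * ENNReal.ofReal (P / (2 ^ j * N) ^ (m + 1))
              = (ENNReal.ofReal 2 * ENNReal.ofReal ((2 * (2 ^ (j + 1) * N)) ^ (m + 1)) *
                ENNReal.ofReal (P / (2 ^ j * N) ^ (m + 1))) * ∫⁻ t, w t ^ (m + 2) := by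
                rw [ENNReal.ofReal_pow (by positivity)]
                norm_num
                ring
            _ ≤ _ := by
                refine mul_le_mul_left ?_ _
                rw [← ENNReal.ofReal_mul (by norm_num), ← ENNReal.ofReal_mul (by positivity)]
                refine ENNReal.ofReal_le_ofReal (le_of_eq ?_)
                have e5 : 2 * (2 ^ (j + 1) * N) = 4 * (2 ^ j * N) := by ring
                rw [e5, mul_pow 4]
                have e6 : (2 ^ j * N) ^ (m + 1) ≠ 0 := by positivity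
                field_simp
    _ = _ := by
        rw [Finset.sum_const, Finset.card_range, nsmul_eq_mul, ENNReal.ofReal_mul (p := 2 * 4 ^ (m + 1) * P)
          (by positivity), ENNReal.ofReal_add (by positivity) (by norm_num), ENNReal.ofReal_natCast,
          ENNReal.ofReal_one]
        ring

end Pool.Agent.K4H46.US
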