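import Mathlib
import Pool.Agent.H810R3.Tub.Compare
import Pool.Agent.K4H46.US.Med
import Pool.Agent.K4H46.US.Two

set_option autoImplicit false

/-! Rectangles in the coordinates of an orthonormal basis. -/

namespace Pool.Agent.K4H46.US

open MeasureTheory Set Metric
open scoped ENNReal NNReal
open Pool.Agent.H810R3.Tub (Vec Space nor box dir Fb wv wv_pos)

variable {d : ℕ}

theorem vol_box (e : OrthonormalBasis (Fin d) ℝ (Vec d)) (I : Fin d → Set ℝ)
    (hI : ∀ k, MeasurableSet (I k)) :
    volume {x : Vec d | ∀ k, e.repr x k ∈ I k} = ∏ k, volume (I k) := by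
  have h1 : MeasurePreserving (fun x : Vec d => (WithLp.ofLp (e.repr x) : Fin d → ℝ)) volume volume :=
    (PiLp.volume_preserving_ofLp (Fin d)).comp e.measurePreserving_repr
  have h2 : {x : Vec d | ∀ k, e.repr x k ∈ I k} =
      (fun x : Vec d => (WithLp.ofLp (e.repr x) : Fin d → ℝ)) ⁻¹' (Set.univ.pi I) := by
    ext x
    simp
  rw [h2, h1.measure_preimage (MeasurableSet.univ_pi hI).nullMeasurableSet, volume_pi_pi]

/-- the rectangle -/
def Rc (e : OrthonormalBasis (Fin d) ℝ (Vec d)) (c : Vec d) (r : Fin d → ℝ) : Set (Vec d) :=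
  {x | ∀ k, |e.repr (x - c) k| ≤ r k}

theorem coord_le (e : OrthonormalBasis (Fin d) ℝ (Vec d)) (x : Vec d) (k : Fin d) :
    |e.repr x k| ≤ ‖x‖ := by
  rw [e.repr_apply_apply]
  have := abs_real_inner_le_norm (e k) x
  rwa [e.norm_eq_one, one_mul] at this

/-- an interval has small volume -/
theorem vol_two (a b c l : ℝ) :
    volume (Icc (a - b) (a + b) ∩ Icc (c - l) (c + l)) ≤ ENNReal.ofReal (min (2 * b) (2 * l)) := by
  rw [ENNReal.ofReal_min]
  refine le_min ?_ ?_
  · refine (measure_mono inter_subset_left).trans (le_of_eq ?_)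
    rw [Real.volume_Icc]; congr 1; ring
  · refine (measure_mono inter_subset_right).trans (le_of_eq ?_)
    rw [Real.volume_Icc]; congr 1; ring

/-- the pairs -/
theorem pair_vol (e : OrthonormalBasis (Fin d) ℝ (Vec d)) (z : Vec d) {s : ℝ} (hs : s ≠ 0)
    (r : Fin d → ℝ) :
    volume {v : Vec d | v ∈ closedBall (0 : Vec d) 3 ∧ ∀ k, |e.repr (s • v - z) k| ≤ 2 * r k} ≤
      ∏ k, ENNReal.ofReal (min 6 (4 * r k / |s|)) := by
  have hs0 : 0 < |s| := abs_pos.2 hs
  calc volume {v : Vec d | v ∈ closedBall (0 : Vec d) 3 ∧ ∀ k, |e.repr (s • v - z) k| ≤ 2 * r k}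
      ≤ volume {v : Vec d | ∀ k, e.repr v k ∈ Icc (0 - 3 : ℝ) (0 + 3) ∩
        Icc (e.repr z k / s - 2 * r k / |s|) (e.repr z k / s + 2 * r k / |s|)} := by
        refine measure_mono fun v hv k => ?_
        obtain ⟨h1, h2⟩ := hv
        rw [mem_closedBall, dist_zero_right] at h1
        have h3 := (coord_le e v k).trans h1
        have h4 := h2 k
        rw [abs_le] at h3
        refine ⟨⟨by linarith, by linarith⟩, ?_⟩
        have e1 : e.repr (s • v - z) k = s * e.repr v k - e.repr z k := by
          rw [map_sub, map_smul]; rfl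
        rw [e1] at h4
        have h5 : |e.repr v k - e.repr z k / s| ≤ 2 * r k / |s| := by
          rw [le_div_iff₀ hs0, ← abs_mul, sub_mul, div_mul_cancel₀ _ hs, mul_comm]
          exact h4
        rw [abs_le] at h5
        exact ⟨by linarith, by linarith⟩
    _ = ∏ k, volume (Icc (0 - 3 : ℝ) (0 + 3) ∩
        Icc (e.repr z k / s - 2 * r k / |s|) (e.repr z k / s + 2 * r k / |s|)) :=
        vol_box e _ fun k => measurableSet_Icc.inter measurableSet_Icc
    _ ≤ _ := by
        refine Finset.prod_le_prod' fun k _ => (vol_two _ _ _ _).trans (le_of_eq ?_)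
        congr 2
        · norm_num
        · ring

/-- the slices -/
theorem slice_vol (e : OrthonormalBasis (Fin d) ℝ (Vec d)) (c p : Vec d) (ρ : Fin d → ℝ) (l : ℝ) :
    volume (Rc e c ρ ∩ closedBall p l) ≤
      (Rc e c fun k => ρ k + l).indicator (fun _ => ∏ k, ENNReal.ofReal (min (2 * ρ k) (2 * l))) p := by
  by_cases hp : p ∈ Rc e c fun k => ρ k + l
  · rw [indicator_of_mem hp]
    calc volume (Rc e c ρ ∩ closedBall p l)
        ≤ volume {v : Vec d | ∀ k, e.repr v k ∈ Icc (e.repr c k - ρ k) (e.repr c k + ρ k) ∩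
          Icc (e.repr p k - l) (e.repr p k + l)} := by
          refine measure_mono fun v hv k => ?_
          obtain ⟨h1, h2⟩ := hv
          have h3 := h1 k
          rw [mem_closedBall, dist_eq_norm] at h2
          have h4 := (coord_le e (v - p) k).trans h2
          rw [map_sub] at h3 h4
          have h3' : |e.repr v k - e.repr c k| ≤ ρ k := h3
          have h4' : |e.repr v k - e.repr p k| ≤ l := h4
          rw [abs_le] at h3' h4'
          exact ⟨⟨by linarith, by linarith⟩, ⟨by linarith, by linarith⟩⟩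
      _ = ∏ k, volume (Icc (e.repr c k - ρ k) (e.repr c k + ρ k) ∩
          Icc (e.repr p k - l) (e.repr p k + l)) :=
          vol_box e _ fun k => measurableSet_Icc.inter measurableSet_Icc
      _ ≤ _ := Finset.prod_le_prod' fun k _ => vol_two _ _ _ _
  · rw [indicator_of_notMem hp]
    have : Rc e c ρ ∩ closedBall p l = ∅ := by
      rw [eq_empty_iff_forall_notMem]
      rintro v ⟨h1, h2⟩
      apply hp
      intro k
      have h3 := h1 k
      rw [mem_closedBall, dist_eq_norm] at h2
      have h4 := (coord_le e (v - p) k).trans h2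
      rw [map_sub] at h3 h4
      have h3' : |e.repr v k - e.repr c k| ≤ ρ k := h3
      have h4' : |e.repr v k - e.repr p k| ≤ l := h4
      have e1 : e.repr (p - c) k = (e.repr v k - e.repr c k) - (e.repr v k - e.repr p k) := by
        rw [map_sub]
        show e.repr p k - e.repr c k = _
        ring
      rw [e1]
      refine (abs_sub _ _).trans ?_
      exact add_le_add h3' h4'
    rw [this, measure_empty]

end Pool.Agent.K4H46.US
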