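import Mathlib
import Pool.Agent.K4H46.US.Geo

set_option autoImplicit false

/-! The moment bound for moving rectangles of a fixed shape. -/

namespace Pool.Agent.K4H46.US

open MeasureTheory Set Metric
open scoped ENNReal NNReal
open Pool.Agent.H810R3.Tub (Vec Space nor box dir Fb wv wv_pos)

variable {d : ℕ}

/-- the set of the times and velocities for which the line is in the moving rectangle -/
def Sx (e : OrthonormalBasis (Fin d) ℝ (Vec d)) (c : ℝ → Vec d) (r : Fin d → ℝ) (x : Vec d)
    (τ D : ℝ) : Set (ℝ × Vec d) :=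
  {p | |p.1 - τ| ≤ D ∧ x + (p.1 - τ) • p.2 ∈ Rc e (c p.1) r}

theorem repr_meas (e : OrthonormalBasis (Fin d) ℝ (Vec d)) (k : Fin d) :
    Measurable fun x : Vec d => e.repr x k := by
  have : Continuous fun x : Vec d => e.repr x k := by
    have h : (fun x : Vec d => e.repr x k) = fun x => inner ℝ (e k) x := by
      funext x; exact e.repr_apply_apply x k
    rw [h]; fun_prop
  exact this.measurable

theorem Sx_meas (e : OrthonormalBasis (Fin d) ℝ (Vec d)) {c : ℝ → Vec d} (hc : Measurable c)
    (r : Fin d → ℝ) (x : Vec d) (τ D : ℝ) : MeasurableSet (Sx e c r x τ D) := by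
  have h1 : MeasurableSet {p : ℝ × Vec d | |p.1 - τ| ≤ D} :=
    measurableSet_le (by fun_prop) measurable_const
  have h2 : MeasurableSet {p : ℝ × Vec d | x + (p.1 - τ) • p.2 ∈ Rc e (c p.1) r} := by
    have : {p : ℝ × Vec d | x + (p.1 - τ) • p.2 ∈ Rc e (c p.1) r} =
        ⋂ k, {p : ℝ × Vec d | |e.repr (x + (p.1 - τ) • p.2 - c p.1) k| ≤ r k} := by
      ext p; simp [Rc]
    rw [this]
    refine MeasurableSet.iInter fun k => ?_
    refine measurableSet_le ?_ measurable_const
    have h3 : Measurable fun p : ℝ × Vec d => x + (p.1 - τ) • p.2 - c p.1 :=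
      ((by fun_prop : Measurable fun p : ℝ × Vec d => x + (p.1 - τ) • p.2)).sub
        (hc.comp measurable_fst)
    exact ((repr_meas e k).comp h3).abs
  exact h1.inter h2

/-- the weight of the times at which the line is in the moving rectangle -/
noncomputable def Mv (w : ℝ → ℝ≥0∞) (S : Set (ℝ × Vec d)) (v : Vec d) : ℝ≥0∞ :=
  ∫⁻ t, w t * S.indicator (fun _ => 1) (t, v)

/-- the power of the weight -/
theorem Mv_pow {w : ℝ → ℝ≥0∞} (hw : Measurable w) {S : Set (ℝ × Vec d)} (hS : MeasurableSet S)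
    (m : ℕ) (v : Vec d) (hfin : Mv w S v ≠ ∞) :
    Mv w S v ^ (m + 2) ≤ 2 ^ (m + 1) * ∫⁻ t, w t * ∫⁻ t', w t' *
      (∫⁻ u in closedBall t |t' - t|, w u) ^ m *
        (S.indicator (fun _ => 1) (t, v) * S.indicator (fun _ => 1) (t', v)) := by
  set g : ℝ → ℝ≥0∞ := fun t => w t * S.indicator (fun _ => 1) (t, v) with hg
  have hSv : Measurable fun t : ℝ => S.indicator (fun _ => (1 : ℝ≥0∞)) (t, v) :=
    (measurable_const.indicator hS).comp (measurable_id.prodMk measurable_const)
  have hgm : Measurable g := hw.mul hSv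
  have hgw : ∀ t, g t ≤ w t := fun t => by
    calc g t ≤ w t * 1 := mul_le_mul_right (indicator_le_self' (fun _ _ => zero_le) _) _
      _ = w t := mul_one _
  have hMe : Mv w S v = ∫⁻ t, g t := rfl
  have h1 : ∀ t, (∫⁻ t, g t) ^ (m + 1) ≤ 2 ^ (m + 1) * ∫⁻ t', g t' *
      (∫⁻ u in closedBall t |t' - t|, w u) ^ m := by
    intro t
    refine (med hgm (by rw [← hMe]; exact hfin) t m).trans (mul_le_mul_right ?_ _)
    refine lintegral_mono fun t' => mul_le_mul_right (pow_le_pow_left₀ zero_le ?_ m) _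
    exact lintegral_mono fun u => hgw u
  rw [hMe, pow_succ _ (m + 1), mul_comm, ← lintegral_mul_const _ hgm]
  calc ∫⁻ t, g t * (∫⁻ t, g t) ^ (m + 1) ≤ ∫⁻ t, g t * (2 ^ (m + 1) * ∫⁻ t', g t' *
      (∫⁻ u in closedBall t |t' - t|, w u) ^ m) :=
        lintegral_mono fun t => mul_le_mul_right (h1 t) _
    _ = 2 ^ (m + 1) * ∫⁻ t, g t * ∫⁻ t', g t' * (∫⁻ u in closedBall t |t' - t|, w u) ^ m := by
        rw [← lintegral_const_mul' _ _ (by simp)]
        refine lintegral_congr fun t => ?_
        ring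
    _ = _ := by
        congr 1
        refine lintegral_congr fun t => ?_
        simp only [hg]
        have hin : S.indicator (fun _ => (1 : ℝ≥0∞)) (t, v) ≠ ∞ := by
          by_cases h : (t, v) ∈ S
          · rw [indicator_of_mem h]; simp
          · rw [indicator_of_notMem h]; simp
        rw [mul_assoc, ← lintegral_const_mul' _ _ hin]
        congr 1
        refine lintegral_congr fun t' => ?_
        ring

end Pool.Agent.K4H46.US
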