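import Mathlib
import Pool.Agent.K4H46.US.Mo

set_option autoImplicit false

/-! The moment bound for moving rectangles of a fixed shape, continued. -/

namespace Pool.Agent.K4H46.US

open MeasureTheory Set Metric
open scoped ENNReal NNReal
open Pool.Agent.H810R3.Tub (Vec Space nor box dir Fb wv wv_pos)

variable {d : ℕ}

theorem H_meas {w : ℝ → ℝ≥0∞} (hw : Measurable w) (m : ℕ) :
    Measurable fun p : ℝ × ℝ => w p.2 * (∫⁻ u in closedBall p.1 |p.2 - p.1|, w u) ^ m := by
  have e : ∀ p : ℝ × ℝ, ∫⁻ u in closedBall p.1 |p.2 - p.1|, w u =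
      ∫⁻ u, {q : (ℝ × ℝ) × ℝ | |q.2 - q.1.1| ≤ |q.1.2 - q.1.1|}.indicator (fun q => w q.2) (p, u) := by
    intro p
    rw [← lintegral_indicator measurableSet_closedBall]
    refine lintegral_congr fun u => ?_
    by_cases h : |u - p.1| ≤ |p.2 - p.1|
    · rw [indicator_of_mem (show u ∈ closedBall p.1 |p.2 - p.1| by
        rw [mem_closedBall, Real.dist_eq]; exact h), indicator_of_mem (show (p, u) ∈
        {q : (ℝ × ℝ) × ℝ | |q.2 - q.1.1| ≤ |q.1.2 - q.1.1|} from h)]
    · rw [indicator_of_notMem (show (p, u) ∉
        {q : (ℝ × ℝ) × ℝ | |q.2 - q.1.1| ≤ |q.1.2 - q.1.1|} from h),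
        indicator_of_notMem (show u ∉ closedBall p.1 |p.2 - p.1| by
          rw [mem_closedBall, Real.dist_eq]; exact h)]
  simp_rw [e]
  have hs : MeasurableSet {q : (ℝ × ℝ) × ℝ | |q.2 - q.1.1| ≤ |q.1.2 - q.1.1|} :=
    measurableSet_le (by fun_prop) (by fun_prop)
  exact (hw.comp measurable_snd).mul
    ((Measurable.lintegral_prod_right' ((hw.comp measurable_snd).indicator hs)).pow_const m)

/-- the interchange of the integrals -/
theorem swap3 {w : ℝ → ℝ≥0∞} (hw : Measurable w) {S : Set (ℝ × Vec d)} (hS : MeasurableSet S)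
    {H : ℝ → ℝ → ℝ≥0∞} (hH : Measurable fun p : ℝ × ℝ => H p.1 p.2) (μ : Measure (Vec d)) [SFinite μ] :
    ∫⁻ v, (∫⁻ t, w t * ∫⁻ t', H t t' *
        (S.indicator (fun _ => 1) (t, v) * S.indicator (fun _ => 1) (t', v))) ∂μ =
      ∫⁻ t, w t * ∫⁻ t', H t t' *
        ∫⁻ v, S.indicator (fun _ => 1) (t, v) * S.indicator (fun _ => 1) (t', v) ∂μ := by
  set I : ℝ × Vec d → ℝ≥0∞ := S.indicator fun _ => 1 with hI
  have hIm : Measurable I := measurable_const.indicator hS
  -- joint measurability
  have m3 : Measurable fun q : (Vec d × ℝ) × ℝ => H q.1.2 q.2 * (I (q.1.2, q.1.1) * I (q.2, q.1.1)) := by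
    refine (hH.comp ((measurable_snd.comp measurable_fst).prodMk measurable_snd)).mul ?_
    exact (hIm.comp ((measurable_snd.comp measurable_fst).prodMk (measurable_fst.comp measurable_fst))).mul
      (hIm.comp (measurable_snd.prodMk (measurable_fst.comp measurable_fst)))
  have m2 : Measurable fun q : Vec d × ℝ => ∫⁻ t', H q.2 t' * (I (q.2, q.1) * I (t', q.1)) :=
    Measurable.lintegral_prod_right' m3
  have m2' : Measurable fun q : Vec d × ℝ => w q.2 * ∫⁻ t', H q.2 t' * (I (q.2, q.1) * I (t', q.1)) :=
    (hw.comp measurable_snd).mul m2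
  rw [lintegral_lintegral_swap (f := fun v t => w t * ∫⁻ t', H t t' * (I (t, v) * I (t', v)))
    m2'.aemeasurable]
  refine lintegral_congr fun t => ?_
  have m1 : Measurable fun v : Vec d => ∫⁻ t', H t t' * (I (t, v) * I (t', v)) :=
    m2.comp (measurable_id.prodMk measurable_const)
  rw [lintegral_const_mul _ m1]
  congr 1
  have m4 : Measurable fun q : Vec d × ℝ => H t q.2 * (I (t, q.1) * I (q.2, q.1)) :=
    m3.comp ((measurable_fst.prodMk measurable_const).prodMk measurable_snd)
  rw [lintegral_lintegral_swap (f := fun v t' => H t t' * (I (t, v) * I (t', v))) m4.aemeasurable]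
  refine lintegral_congr fun t' => ?_
  have m5 : Measurable fun v : Vec d => I (t, v) * I (t', v) :=
    (hIm.comp (measurable_const.prodMk measurable_id)).mul
      (hIm.comp (measurable_const.prodMk measurable_id))
  rw [lintegral_const_mul _ m5]

/-- the product of the sides, cut off at `D` -/
noncomputable def cut (D : ℝ) (r : Fin d → ℝ) : ℝ := ∏ k, min (r k) D

/-- **The moment bound.** -/
theorem mo {m : ℕ} (e : OrthonormalBasis (Fin (m + 1)) ℝ (Vec (m + 1))) {c : ℝ → Vec (m + 1)}
    (hc : Measurable c) {w : ℝ → ℝ≥0∞} (hw : Measurable w) (hfin : ∫⁻ t, w t ^ (m + 2) ≠ ∞)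
    {r : Fin (m + 1) → ℝ} {N D : ℝ} {J : ℕ} (hN : 0 < N) (hr : ∀ k, N ≤ r k) (hND : N ≤ D)
    (hJ : 2 * D ≤ 2 ^ J * N) {ι : Type} [Fintype ι] (x : ι → Vec (m + 1)) (τ : ι → ℝ)
    {B : ι → Set (Vec (m + 1))} (hBm : ∀ i, MeasurableSet (B i))
    (hBd : ∀ i j, i ≠ j → Disjoint (B i) (B j)) (hBs : ∀ i, B i ⊆ closedBall 0 3) :
    ∑ i, ∫⁻ v in B i, Mv w (Sx e c r (x i) (τ i) D) v ^ (m + 2) ≤
      2 ^ (m + 1) * (ENNReal.ofReal (2 * 4 ^ (m + 1) * (12 ^ (m + 1) * cut D r) * (J + 1)) *
        ∫⁻ t, w t ^ (m + 2)) := by
  classical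
  have hD : 0 < D := by linarith
  set S : ι → Set (ℝ × Vec (m + 1)) := fun i => Sx e c r (x i) (τ i) D with hS
  have hSm : ∀ i, MeasurableSet (S i) := fun i => Sx_meas e hc r (x i) (τ i) D
  set K : ℝ → ℝ → ℝ≥0∞ := fun t t' => ∑ i, ∫⁻ v in B i,
    (S i).indicator (fun _ => 1) (t, v) * (S i).indicator (fun _ => 1) (t', v) with hK
  have hHm := H_meas hw m
  -- finiteness
  have hMfin : ∀ i v, Mv w (S i) v ≠ ∞ := by
    intro i v
    have h1 : Mv w (S i) v ≤ ∫⁻ t in closedBall (τ i) D, w t := by
      unfold Mv
      rw [← lintegral_indicator measurableSet_closedBall]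
      refine lintegral_mono fun t => ?_
      by_cases h : (t, v) ∈ S i
      · rw [indicator_of_mem h, mul_one, indicator_of_mem]
        rw [mem_closedBall, Real.dist_eq]; exact h.1
      · rw [indicator_of_notMem h, mul_zero]; exact zero_le
    refine ne_top_of_le_ne_top ?_ h1
    have h2 := pow_lint (volume.restrict (closedBall (τ i) D)) hw (m + 1)
    rw [Measure.restrict_apply_univ, Real.volume_closedBall] at h2
    have h3 : (∫⁻ t in closedBall (τ i) D, w t) ^ (m + 2) ≠ ∞ := by
      refine ne_top_of_le_ne_top (ENNReal.mul_ne_top (ENNReal.pow_ne_top ENNReal.ofReal_ne_top) ?_) h2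
      exact ne_top_of_le_ne_top hfin (setLIntegral_le_lintegral _ _)
    intro h4
    rw [h4] at h3
    exact h3 (ENNReal.top_pow (by omega))
  -- the kernel
  have hcard : ∀ t t', K t t' ≤ volume {v : Vec (m + 1) | v ∈ closedBall (0 : Vec (m + 1)) 3 ∧
      ∀ k, |e.repr ((t - t') • v - (c t - c t')) k| ≤ 2 * r k} := by
    intro t t'
    set Q : Set (Vec (m + 1)) := {v | ∀ k, |e.repr ((t - t') • v - (c t - c t')) k| ≤ 2 * r k} with hQ
    have hQm : MeasurableSet Q := by
      have : Q = ⋂ k, {v | |e.repr ((t - t') • v - (c t - c t')) k| ≤ 2 * r k} := by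
        ext p; simp [hQ]
      rw [this]
      refine MeasurableSet.iInter fun k => measurableSet_le ?_ measurable_const
      exact ((repr_meas e k).comp (by fun_prop :
        Measurable fun v : Vec (m + 1) => (t - t') • v - (c t - c t'))).abs
    have h1 : ∀ i, ∫⁻ v in B i, (S i).indicator (fun _ => 1) (t, v) *
        (S i).indicator (fun _ => 1) (t', v) ≤ volume (B i ∩ Q) := by
      intro i
      rw [← setLIntegral_one, inter_comm, ← setLIntegral_indicator hQm]
      refine lintegral_mono fun v => ?_
      by_cases h : (t, v) ∈ S i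
      · by_cases h' : (t', v) ∈ S i
        · rw [indicator_of_mem h, indicator_of_mem h', indicator_of_mem, mul_one]
          intro k
          have h2 := h.2 k
          have h3 := h'.2 k
          have e1 : (t - t') • v - (c t - c t') = (x i + (t - τ i) • v - c t) -
              (x i + (t' - τ i) • v - c t') := by
            have : (t - t') • v = (t - τ i) • v - (t' - τ i) • v := by
              rw [← sub_smul]; congr 1; ring
            rw [this]; abel
          rw [e1, map_sub]
          show |e.repr (x i + (t - τ i) • v - c t) k - e.repr (x i + (t' - τ i) • v - c t') k| ≤ _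
          refine (abs_sub _ _).trans ?_
          have h2' : |e.repr (x i + (t - τ i) • v - c t) k| ≤ r k := h2
          have h3' : |e.repr (x i + (t' - τ i) • v - c t') k| ≤ r k := h3
          linarith
        · rw [indicator_of_notMem h', mul_zero]; exact zero_le
      · rw [indicator_of_notMem h, zero_mul]; exact zero_le
    calc K t t' ≤ ∑ i, volume (B i ∩ Q) := Finset.sum_le_sum fun i _ => h1 i
      _ = volume (⋃ i, B i ∩ Q) := by
          rw [measure_iUnion (fun i j hij => ?_) (fun i => (hBm i).inter hQm), tsum_fintype]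
          exact (hBd i j hij).mono inter_subset_left inter_subset_left
      _ ≤ _ := by
          refine measure_mono (iUnion_subset fun i v hv => ?_)
          exact ⟨hBs i hv.1, hv.2⟩
  have hK3 : ∀ t t', 2 * D < |t' - t| → K t t' = 0 := by
    intro t t' h
    refine Finset.sum_eq_zero fun i _ => ?_
    rw [lintegral_eq_zero_iff']
    · refine Filter.Eventually.of_forall fun v => ?_
      by_cases h1 : (t, v) ∈ S i
      · by_cases h2 : (t', v) ∈ S i
        · exfalso
          have h3 := h1.1
          have h4 := h2.1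
          have : |t' - t| ≤ 2 * D := by
            have e1 : t' - t = (t' - τ i) - (t - τ i) := by ring
            rw [e1]
            refine (abs_sub _ _).trans ?_
            have h3' : |t - τ i| ≤ D := h3
            have h4' : |t' - τ i| ≤ D := h4
            linarith
          linarith
        · simp [indicator_of_notMem h2]
      · simp [indicator_of_notMem h1]
    · have hIm : Measurable ((S i).indicator fun _ => (1 : ℝ≥0∞)) := measurable_const.indicator (hSm i)
      exact ((hIm.comp (measurable_const.prodMk measurable_id)).mul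
        (hIm.comp (measurable_const.prodMk measurable_id))).aemeasurable
  have hcut : 0 ≤ cut D r := Finset.prod_nonneg fun k _ => le_min (by linarith [hr k]) hD.le
  have hcutN : N ^ (m + 1) ≤ cut D r := by
    unfold cut
    calc N ^ (m + 1) = ∏ _k : Fin (m + 1), N := by
          rw [Finset.prod_const, Finset.card_univ, Fintype.card_fin]
      _ ≤ _ := Finset.prod_le_prod (fun k _ => hN.le) fun k _ => le_min (hr k) hND
  have hd := dyad hw (m := m) (J := J) (N := N) (P := 12 ^ (m + 1) * cut D r) hN (by positivity)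
    (A := 6 ^ (m + 1)) (by positivity) (by
      calc (6 : ℝ) ^ (m + 1) * N ^ (m + 1) ≤ 12 ^ (m + 1) * cut D r := by
            gcongr; norm_num) (K := K) ?_ ?_ ?_
  · calc ∑ i, ∫⁻ v in B i, Mv w (S i) v ^ (m + 2)
        ≤ ∑ i, ∫⁻ v in B i, 2 ^ (m + 1) * ∫⁻ t, w t * ∫⁻ t', w t' *
          (∫⁻ u in closedBall t |t' - t|, w u) ^ m *
          ((S i).indicator (fun _ => 1) (t, v) * (S i).indicator (fun _ => 1) (t', v)) :=
          Finset.sum_le_sum fun i _ => lintegral_mono fun v => Mv_pow hw (hSm i) m v (hMfin i v)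
      _ = 2 ^ (m + 1) * ∑ i, ∫⁻ t, w t * ∫⁻ t', w t' *
          (∫⁻ u in closedBall t |t' - t|, w u) ^ m * ∫⁻ v in B i,
          ((S i).indicator (fun _ => 1) (t, v) * (S i).indicator (fun _ => 1) (t', v)) := by
          rw [Finset.mul_sum]
          refine Finset.sum_congr rfl fun i _ => ?_
          rw [lintegral_const_mul' _ _ (by simp)]
          congr 1
          exact swap3 hw (hSm i) (H := fun t t' => w t' * (∫⁻ u in closedBall t |t' - t|, w u) ^ m)
            hHm (volume.restrict (B i))
      _ = 2 ^ (m + 1) * ∫⁻ t, w t * ∫⁻ t', w t' *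
          (∫⁻ u in closedBall t |t' - t|, w u) ^ m * K t t' := by
          congr 1
          have mI : ∀ i, Measurable ((S i).indicator fun _ => (1 : ℝ≥0∞)) := fun i =>
            measurable_const.indicator (hSm i)
          have mk : ∀ i, Measurable fun p : ℝ × ℝ => ∫⁻ v in B i,
              ((S i).indicator (fun _ => (1 : ℝ≥0∞)) (p.1, v) *
                (S i).indicator (fun _ => (1 : ℝ≥0∞)) (p.2, v)) := by
            intro i
            have m3 : Measurable fun q : (ℝ × ℝ) × Vec (m + 1) =>
                ((S i).indicator (fun _ => (1 : ℝ≥0∞)) (q.1.1, q.2) *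
                (S i).indicator (fun _ => (1 : ℝ≥0∞)) (q.1.2, q.2)) :=
              ((mI i).comp ((measurable_fst.comp measurable_fst).prodMk measurable_snd)).mul
                ((mI i).comp ((measurable_snd.comp measurable_fst).prodMk measurable_snd))
            exact Measurable.lintegral_prod_right' m3
          have mk2 : ∀ i, Measurable fun p : ℝ × ℝ => w p.2 *
              (∫⁻ u in closedBall p.1 |p.2 - p.1|, w u) ^ m * ∫⁻ v in B i,
              ((S i).indicator (fun _ => (1 : ℝ≥0∞)) (p.1, v) *
                (S i).indicator (fun _ => (1 : ℝ≥0∞)) (p.2, v)) := fun i => hHm.mul (mk i)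
          rw [← lintegral_finsetSum]
          · refine lintegral_congr fun t => ?_
            rw [← Finset.mul_sum, ← lintegral_finsetSum]
            · congr 1
              refine lintegral_congr fun t' => ?_
              rw [← Finset.mul_sum]
            · intro i _
              exact (mk2 i).comp (measurable_const.prodMk measurable_id)
          · intro i _
            exact hw.mul (Measurable.lintegral_prod_right' (mk2 i))
      _ ≤ _ := mul_le_mul_right hd _
  · -- near
    intro t t' _
    refine (hcard t t').trans ?_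
    calc volume {v : Vec (m + 1) | v ∈ closedBall (0 : Vec (m + 1)) 3 ∧
      ∀ k, |e.repr ((t - t') • v - (c t - c t')) k| ≤ 2 * r k}
        ≤ volume {v : Vec (m + 1) | ∀ k, e.repr v k ∈ Icc (-3 : ℝ) 3} := by
          refine measure_mono fun v hv k => ?_
          have h1 := hv.1
          rw [mem_closedBall, dist_zero_right] at h1
          have h3 := (coord_le e v k).trans h1
          rw [abs_le] at h3
          exact ⟨h3.1, h3.2⟩
      _ = ∏ _k : Fin (m + 1), volume (Icc (-3 : ℝ) 3) := vol_box e _ fun _ => measurableSet_Icc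
      _ = _ := by
          rw [Finset.prod_const, Finset.card_univ, Fintype.card_fin, Real.volume_Icc,
            ENNReal.ofReal_pow (by norm_num)]
          norm_num
  · -- far
    intro t t' h
    rcases lt_or_ge (2 * D) |t' - t| with h' | h'
    · rw [hK3 t t' h']; exact zero_le
    have hs : t - t' ≠ 0 := by
      intro h0
      have : |t' - t| = 0 := by rw [abs_sub_comm, h0, abs_zero]
      linarith
    have hs0 : 0 < |t - t'| := abs_pos.2 hs
    refine (hcard t t').trans ((pair_vol e _ hs r).trans ?_)
    rw [← ENNReal.ofReal_prod_of_nonneg fun k _ => le_min (by norm_num) (div_nonneg (by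
      linarith [hr k]) hs0.le)]
    refine ENNReal.ofReal_le_ofReal ?_
    have e1 : 12 ^ (m + 1) * cut D r / |t' - t| ^ (m + 1) =
        ∏ k : Fin (m + 1), 12 * min (r k) D / |t - t'| := by
      rw [Finset.prod_div_distrib, Finset.prod_mul_distrib, Finset.prod_const, Finset.prod_const,
        Finset.card_univ, Fintype.card_fin, abs_sub_comm]
      rfl
    rw [e1]
    refine Finset.prod_le_prod (fun k _ => le_min (by norm_num) (div_nonneg (by
      linarith [hr k]) hs0.le)) fun k _ => ?_
    rw [abs_sub_comm] at h h'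
    rcases le_total (r k) D with h1 | h1
    · rw [min_eq_left h1]
      refine (min_le_right _ _).trans ?_
      have : 0 ≤ r k := by linarith [hr k]
      gcongr
      norm_num
    · rw [min_eq_right h1]
      refine (min_le_left _ _).trans ?_
      rw [le_div_iff₀ hs0]
      linarith
  · intro t t' h
    exact hK3 t t' (lt_of_le_of_lt hJ h)

end Pool.Agent.K4H46.US
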