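import Mathlib
import Pool.Agent.K4H46.US.Mp

set_option autoImplicit false

/-! The slices of the boxes. -/

namespace Pool.Agent.K4H46.US

open MeasureTheory Set Metric
open scoped ENNReal NNReal
open Pool.Agent.H810R3.Tub (Vec Space nor box dir Fb wv wv_pos)

variable {d : ℕ}

/-- the point over `x` at the height `t` -/
noncomputable def pt (x : Vec d) (t : ℝ) : Space d := WithLp.toLp 2 (x, t)

theorem pt_meas : Measurable fun p : Vec d × ℝ => pt p.1 p.2 :=
  (WithLp.volume_preserving_toLp (Vec d) ℝ).measurable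

theorem sp_lint {h : Space d → ℝ≥0∞} (hm : Measurable h) :
    ∫⁻ y, h y = ∫⁻ t : ℝ, ∫⁻ x : Vec d, h (pt x t) := by
  have hmp := WithLp.volume_preserving_toLp (Vec d) ℝ
  rw [← hmp.lintegral_comp hm, Measure.volume_eq_prod]
  exact lintegral_prod_symm' (fun p : Vec d × ℝ => h (pt p.1 p.2)) (hm.comp pt_meas)

theorem box_slice {N : ℝ} (hN : 1 ≤ N) {ω : Vec d} (hω : ‖ω‖ ≤ 1) {f : Fin d → Space d}
    (hf : Orthonormal ℝ (Fin.cons (nor ω) f : Fin (d + 1) → Space d)) {a y : Space d}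
    (hy : y ∈ box N (nor ω) f a) {v : Vec d} (hv : ‖v + (2 : ℝ) • ω‖ ≤ 1 / N) :
    |y.snd - a.snd| ≤ (2 * d + 1) * N ^ 2 ∧
      ‖y.fst - (a.fst + (y.snd - a.snd) • v)‖ ≤ (2 * d + 1) * N := by
  have hN0 : 0 < N := by linarith
  have hd0 : (0 : ℝ) ≤ d := Nat.cast_nonneg d
  have hperp := Pool.Agent.H810R3.Tub.box_perp hN hf hy
  set z : Space d := y - a with hz
  set τ : ℝ := inner ℝ (nor ω) z with hτ
  have hτ1 : |τ| ≤ N ^ 2 / 2 := hy.1
  set g : ℝ := √(1 + ‖-(2 : ℝ) • ω‖ ^ 2) with hg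
  have hg1 : 1 ≤ g := by
    rw [hg]
    refine Real.one_le_sqrt.2 ?_
    nlinarith [sq_nonneg ‖-(2 : ℝ) • ω‖]
  have hg0 : 0 < g := by linarith
  set h : Space d := WithLp.toLp 2 (-(2 : ℝ) • ω, (1:ℝ)) with hh
  have he : nor ω = g⁻¹ • h := rfl
  set q : Space d := z - τ • nor ω with hq
  have hq2 : ‖q‖ ^ 2 = ‖q.fst‖ ^ 2 + q.snd ^ 2 := Pool.Agent.H810R3.Tub.norm_space_sq q
  have hq0 : ‖q‖ ≤ d * N / 2 := hperp
  have hqf : ‖q.fst‖ ≤ d * N / 2 := by
    refine le_trans ?_ hq0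
    refine le_of_sq_le_sq ?_ (norm_nonneg _)
    nlinarith [sq_nonneg q.snd]
  have hqs : |q.snd| ≤ d * N / 2 := by
    refine le_trans ?_ hq0
    refine abs_le_of_sq_le_sq ?_ (norm_nonneg _)
    nlinarith [sq_nonneg ‖q.fst‖]
  have hzq : z = τ • nor ω + q := by rw [hq]; abel
  have hnf : (nor ω).fst = g⁻¹ • (-(2 : ℝ) • ω) := by rw [he]; rfl
  have hns : (nor ω).snd = g⁻¹ := by
    rw [he, WithLp.smul_snd]
    show g⁻¹ • (1 : ℝ) = _
    simp
  have hzs : z.snd = τ * g⁻¹ + q.snd := by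
    rw [hzq, WithLp.add_snd, WithLp.smul_snd, hns]; rfl
  have hzf : z.fst = (τ * g⁻¹) • (-(2 : ℝ) • ω) + q.fst := by
    rw [hzq, WithLp.add_fst, WithLp.smul_fst, hnf, smul_smul]
  have hτg : |τ * g⁻¹| ≤ N ^ 2 / 2 := by
    rw [abs_mul, abs_of_pos (inv_pos.2 hg0)]
    calc |τ| * g⁻¹ ≤ |τ| * 1 := by
          refine mul_le_mul_of_nonneg_left ?_ (abs_nonneg _)
          rw [inv_le_one₀ hg0]; exact hg1
      _ ≤ _ := by rw [mul_one]; exact hτ1
  have hNN : N ≤ N ^ 2 := by nlinarith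
  have hs1 : |z.snd| ≤ (d + 1) * N ^ 2 / 2 := by
    rw [hzs]
    refine (abs_add_le _ _).trans ?_
    nlinarith [mul_le_mul_of_nonneg_left hNN hd0]
  have hs1' : |y.snd - a.snd| ≤ (d + 1) * N ^ 2 / 2 := hs1
  refine ⟨by nlinarith [sq_nonneg N, mul_nonneg hd0 (sq_nonneg N)], ?_⟩
  have e1 : y.fst - (a.fst + (y.snd - a.snd) • v) = q.fst + q.snd • ((2 : ℝ) • ω) -
      z.snd • (v + (2 : ℝ) • ω) := by
    have e2 : y.fst = a.fst + z.fst := by
      rw [hz, WithLp.sub_fst]; abel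
    have e3 : y.snd - a.snd = z.snd := rfl
    rw [e2, e3, hzf]
    have e4 : τ * g⁻¹ = z.snd - q.snd := by rw [hzs]; ring
    rw [e4]
    module
  rw [e1]
  refine (norm_sub_le _ _).trans ?_
  have h5 : ‖z.snd • (v + (2 : ℝ) • ω)‖ ≤ (d + 1) * N / 2 := by
    rw [norm_smul, Real.norm_eq_abs]
    calc |z.snd| * ‖v + (2 : ℝ) • ω‖ ≤ ((d + 1) * N ^ 2 / 2) * (1 / N) := by gcongr
      _ = _ := by field_simp
  have h6 : ‖q.fst + q.snd • ((2 : ℝ) • ω)‖ ≤ d * N / 2 + d * N := by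
    refine (norm_add_le _ _).trans (add_le_add hqf ?_)
    rw [norm_smul, norm_smul, Real.norm_eq_abs]
    norm_num
    calc |q.snd| * (2 * ‖ω‖) ≤ (d * N / 2) * (2 * 1) := by gcongr
      _ = _ := by ring
  nlinarith [mul_nonneg hd0 hN0.le]

/-- the integral of a weight over a box -/
theorem bx_int {N : ℝ} (hN : 1 ≤ N) {ω : Vec d} (hω : ‖ω‖ ≤ 1) {f : Fin d → Space d}
    (hf : Orthonormal ℝ (Fin.cons (nor ω) f : Fin (d + 1) → Space d)) (a : Space d)
    {v : Vec d} (hv : ‖v + (2 : ℝ) • ω‖ ≤ 1 / N)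
    (e : OrthonormalBasis (Fin d) ℝ (Vec d)) {c : ℝ → Vec d} (hc : Measurable c)
    {w : ℝ → ℝ≥0∞} (hw : Measurable w) (ρ : Fin d → ℝ) :
    ∫⁻ y in box N (nor ω) f a, w y.snd * (Rc e (c y.snd) ρ).indicator (fun _ => 1) y.fst ≤
      (∏ k, ENNReal.ofReal (min (2 * ρ k) (2 * ((2 * d + 1) * N)))) *
        Mv w (Sx e c (fun k => ρ k + (2 * d + 1) * N) a.fst a.snd ((2 * d + 1) * N ^ 2)) v := by
  set l : ℝ := (2 * d + 1) * N with hl
  set D : ℝ := (2 * d + 1) * N ^ 2 with hD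
  have hbm : MeasurableSet (box N (nor ω) f a) :=
    (Pool.Agent.H810R3.Tub.box_closed _ _ _ _).measurableSet
  have hRm : MeasurableSet {p : Vec d × ℝ | p.1 ∈ Rc e (c p.2) ρ} := by
    have : {p : Vec d × ℝ | p.1 ∈ Rc e (c p.2) ρ} =
        ⋂ k, {p : Vec d × ℝ | |e.repr (p.1 - c p.2) k| ≤ ρ k} := by
      ext p; simp [Rc]
    rw [this]
    refine MeasurableSet.iInter fun k => measurableSet_le ?_ measurable_const
    exact ((repr_meas e k).comp (measurable_fst.sub (hc.comp measurable_snd))).abs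
  have hfs : Measurable fun y : Space d => (y.fst, y.snd) :=
    (WithLp.volume_preserving_ofLp (Vec d) ℝ).measurable
  have hgm : Measurable fun y : Space d => w y.snd * (Rc e (c y.snd) ρ).indicator (fun _ => 1) y.fst := by
    have h1 : Measurable fun p : Vec d × ℝ =>
        {p : Vec d × ℝ | p.1 ∈ Rc e (c p.2) ρ}.indicator (fun _ => (1 : ℝ≥0∞)) p :=
      measurable_const.indicator hRm
    exact (hw.comp (measurable_snd.comp hfs)).mul (h1.comp hfs)
  rw [← lintegral_indicator hbm, sp_lint (hgm.indicator hbm)]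
  unfold Mv
  have hSm := Sx_meas e hc (fun k => ρ k + l) a.fst a.snd D
  rw [← lintegral_const_mul' _ _ (ENNReal.prod_ne_top fun k _ => ENNReal.ofReal_ne_top)]
  refine lintegral_mono fun t => ?_
  calc ∫⁻ x : Vec d, (box N (nor ω) f a).indicator (fun y => w y.snd *
        (Rc e (c y.snd) ρ).indicator (fun _ => 1) y.fst) (pt x t)
      ≤ ∫⁻ x : Vec d, (Rc e (c t) ρ ∩ closedBall (a.fst + (t - a.snd) • v) l).indicator
          (fun _ => w t * {t : ℝ | |t - a.snd| ≤ D}.indicator (fun _ => 1) t) x := by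
        refine lintegral_mono fun x => ?_
        by_cases hb : pt x t ∈ box N (nor ω) f a
        · rw [indicator_of_mem hb]
          obtain ⟨h1, h2⟩ := box_slice hN hω hf hb hv
          have h1' : |t - a.snd| ≤ D := h1
          have h2' : ‖x - (a.fst + (t - a.snd) • v)‖ ≤ l := h2
          show w t * (Rc e (c t) ρ).indicator (fun _ => 1) x ≤ _
          by_cases hx : x ∈ Rc e (c t) ρ
          · rw [indicator_of_mem hx, indicator_of_mem (show x ∈ Rc e (c t) ρ ∩
              closedBall (a.fst + (t - a.snd) • v) l from ⟨hx, by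
                rw [mem_closedBall, dist_eq_norm]; exact h2'⟩),
              indicator_of_mem (show t ∈ {t : ℝ | |t - a.snd| ≤ D} from h1')]
          · rw [indicator_of_notMem hx, mul_zero]; exact zero_le
        · rw [indicator_of_notMem hb]; exact zero_le
    _ ≤ (w t * {t : ℝ | |t - a.snd| ≤ D}.indicator (fun _ => 1) t) *
          volume (Rc e (c t) ρ ∩ closedBall (a.fst + (t - a.snd) • v) l) := by
        exact lintegral_indicator_const_le _ _
    _ ≤ (w t * {t : ℝ | |t - a.snd| ≤ D}.indicator (fun _ => 1) t) *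
          (Rc e (c t) fun k => ρ k + l).indicator
            (fun _ => ∏ k, ENNReal.ofReal (min (2 * ρ k) (2 * l))) (a.fst + (t - a.snd) • v) :=
        mul_le_mul_right (slice_vol e _ _ _ _) _
    _ ≤ _ := by
        by_cases h1 : |t - a.snd| ≤ D
        · by_cases h2 : a.fst + (t - a.snd) • v ∈ Rc e (c t) fun k => ρ k + l
          · rw [indicator_of_mem h2, indicator_of_mem (show t ∈ {t : ℝ | |t - a.snd| ≤ D} from h1),
              indicator_of_mem (show (t, v) ∈ Sx e c (fun k => ρ k + l) a.fst a.snd D from ⟨h1, h2⟩)]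
            exact le_of_eq (by ring)
          · rw [indicator_of_notMem h2, mul_zero]; exact zero_le
        · rw [indicator_of_notMem (show t ∉ {t : ℝ | |t - a.snd| ≤ D} from h1), mul_zero, zero_mul]
          exact zero_le

end Pool.Agent.K4H46.US
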