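import Mathlib

set_option autoImplicit false

/-! Sums over dyadic scales. -/

namespace Pool.Agent.K4H46.US

open Set
open scoped ENNReal NNReal

theorem tsum_pi_pow {α : Type*} (g : α → ℝ≥0∞) : ∀ n : ℕ,
    ∑' p : Fin n → α, ∏ k, g (p k) = (∑' q, g q) ^ n := by
  intro n
  induction n with
  | zero => simp
  | succ n ih =>
    rw [← (Fin.consEquiv fun _ : Fin (n + 1) => α).tsum_eq, ENNReal.tsum_prod', pow_succ, mul_comm,
      ← ih, ← ENNReal.tsum_mul_right]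
    refine tsum_congr fun a => ?_
    rw [← ENNReal.tsum_mul_left]
    refine tsum_congr fun p => ?_
    rw [Fin.prod_univ_succ]
    rfl

theorem three_sum {F : ℤ → ℝ≥0∞} {j0 : ℤ} {K : ℕ} {a c : ℕ → ℝ≥0∞} {b : ℝ≥0∞}
    (h1 : ∀ i : ℕ, F (j0 - i) ≤ a i) (h2 : ∀ i : ℕ, i < K → F (i + (j0 + 1)) ≤ b)
    (h3 : ∀ i : ℕ, F (i + K + (j0 + 1)) ≤ c i) :
    ∑' j, F j ≤ ∑' i, a i + K * b + ∑' i, c i := by
  have e1 : ∑' j, F j = ∑' j : ℤ, F (j + (j0 + 1)) := ((Equiv.addRight (j0 + 1)).tsum_eq F).symm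
  have e2 : ∑' j : ℤ, F (j + (j0 + 1)) = ∑' n : ℕ, F ((n : ℤ) + (j0 + 1)) +
      ∑' n : ℕ, F (-((n : ℤ) + 1) + (j0 + 1)) :=
    tsum_of_nat_of_neg_add_one (f := fun j : ℤ => F (j + (j0 + 1))) ENNReal.summable ENNReal.summable
  have e3 : ∑' n : ℕ, F ((n : ℤ) + (j0 + 1)) = ∑ n ∈ Finset.range K, F ((n : ℤ) + (j0 + 1)) +
      ∑' n : ℕ, F (((n + K : ℕ) : ℤ) + (j0 + 1)) :=
    (ENNReal.summable.sum_add_tsum_nat_add' (f := fun n : ℕ => F ((n : ℤ) + (j0 + 1)))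
      (k := K)).symm
  rw [e1, e2, e3]
  have k1 : ∑' n : ℕ, F (-((n : ℤ) + 1) + (j0 + 1)) ≤ ∑' i, a i := by
    refine ENNReal.tsum_le_tsum fun n => ?_
    have : -((n : ℤ) + 1) + (j0 + 1) = j0 - n := by ring
    rw [this]
    exact h1 n
  have k2 : ∑ n ∈ Finset.range K, F ((n : ℤ) + (j0 + 1)) ≤ K * b := by
    calc ∑ n ∈ Finset.range K, F ((n : ℤ) + (j0 + 1)) ≤ ∑ _n ∈ Finset.range K, b :=
          Finset.sum_le_sum fun n hn => h2 n (Finset.mem_range.1 hn)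
      _ = K * b := by rw [Finset.sum_const, Finset.card_range, nsmul_eq_mul]
  have k3 : ∑' n : ℕ, F (((n + K : ℕ) : ℤ) + (j0 + 1)) ≤ ∑' i, c i := by
    refine ENNReal.tsum_le_tsum fun n => ?_
    push_cast
    exact h3 n
  calc _ ≤ K * b + ∑' i, c i + ∑' i, a i := add_le_add (add_le_add k2 k3) k1
    _ = _ := by ring

theorem geo_sum {θ : ℝ} (hθ : 0 < θ) :
    ∑' i : ℕ, ENNReal.ofReal (((2 : ℝ) ^ (-θ)) ^ i) = ENNReal.ofReal ((1 - (2 : ℝ) ^ (-θ))⁻¹) := by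
  have h1 : (2 : ℝ) ^ (-θ) < 1 := Real.rpow_lt_one_of_one_lt_of_neg (by norm_num) (by linarith)
  have h0 : 0 ≤ (2 : ℝ) ^ (-θ) := by positivity
  rw [← ENNReal.ofReal_tsum_of_nonneg (fun i => by positivity)
    (summable_geometric_of_lt_one h0 h1), tsum_geometric_of_lt_one h0 h1]

end Pool.Agent.K4H46.US
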