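import Mathlib
import Pool.Agent.K4H46.US.Su

set_option autoImplicit false

/-! Sums over dyadic scales, continued. -/

namespace Pool.Agent.K4H46.US

open Set
open scoped ENNReal NNReal

theorem exists_pow2 {x : ℝ} (hx : 1 ≤ x) : ∃ K : ℕ, x ≤ 2 ^ K ∧ (K : ℝ) ≤ 2 * Real.log x + 1 := by
  have hx0 : 0 < x := by linarith
  have hl : 0 ≤ Real.log x := Real.log_nonneg hx
  have hl2 : 1 / 2 < Real.log 2 := by
    have := Real.log_two_gt_d9
    linarith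
  have hl20 : 0 < Real.log 2 := by linarith
  set y : ℝ := Real.log x / Real.log 2 with hy
  have hy0 : 0 ≤ y := by positivity
  have hy2 : y ≤ 2 * Real.log x := by
    rw [hy, div_le_iff₀ hl20]
    nlinarith
  refine ⟨⌈y⌉₊, ?_, ?_⟩
  · have h1 : x = (2 : ℝ) ^ y := by
      rw [Real.rpow_def_of_pos (by norm_num), hy, mul_div_cancel₀ _ hl20.ne', Real.exp_log hx0]
    calc x = (2 : ℝ) ^ y := h1
      _ ≤ (2 : ℝ) ^ ((⌈y⌉₊ : ℕ) : ℝ) :=
          Real.rpow_le_rpow_of_exponent_le (by norm_num) (Nat.le_ceil y)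
      _ = 2 ^ ⌈y⌉₊ := Real.rpow_natCast _ _
  · have := (Nat.ceil_lt_add_one hy0).le
    linarith

/-- the contribution of one coordinate -/
noncomputable def hh (θ l D : ℝ) (j : ℤ) : ℝ :=
  min (2 * 2 ^ (j + 1)) (2 * l) * (min (2 ^ (j + 1) + l) D) ^ θ * ((2 : ℝ) ^ (-j)) ^ θ

theorem hh_nonneg {θ l D : ℝ} (hl : 0 < l) (hD : 0 < D) (j : ℤ) : 0 ≤ hh θ l D j := by
  have h1 : (0 : ℝ) < 2 ^ (j + 1) := by positivity
  unfold hh
  have h2 : 0 ≤ min (2 * (2 : ℝ) ^ (j + 1)) (2 * l) := le_min (by positivity) (by positivity)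
  have h3 : 0 ≤ min ((2 : ℝ) ^ (j + 1) + l) D := le_min (by positivity) hD.le
  positivity

theorem hh_a {θ l D : ℝ} (hθ0 : 0 < θ) (hθ : θ ≤ 1 / 2) (hl : 0 < l) (hD : 0 < D) {j : ℤ} {i : ℕ}
    (h : (2 : ℝ) ^ j * 2 ^ i ≤ l) : hh θ l D j ≤ 12 * l * ((2 : ℝ) ^ (-(1 / 2 : ℝ))) ^ i := by
  have hj : (0 : ℝ) < 2 ^ j := by positivity
  have hj1 : (2 : ℝ) ^ (j + 1) = 2 * 2 ^ j := by rw [zpow_add₀ (by norm_num)]; ring
  have hi1 : (1 : ℝ) ≤ 2 ^ i := one_le_pow₀ (by norm_num)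
  have hjl : (2 : ℝ) ^ j ≤ l := le_trans (le_mul_of_one_le_right hj.le hi1) h
  set u : ℝ := l / 2 ^ j with hu
  have hu1 : 1 ≤ u := by rw [hu, one_le_div hj]; exact hjl
  have hu0 : 0 < u := by linarith
  have hui : (2 : ℝ) ^ i ≤ u := by rw [hu, le_div_iff₀ hj, mul_comm]; exact h
  have e1 : (min ((2 : ℝ) ^ (j + 1) + l) D) ^ θ * ((2 : ℝ) ^ (-j)) ^ θ ≤ 3 * u ^ (1 / 2 : ℝ) := by
    have h3 : 0 ≤ min ((2 : ℝ) ^ (j + 1) + l) D := le_min (by positivity) hD.le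
    rw [← Real.mul_rpow h3 (by positivity)]
    have h4 : min ((2 : ℝ) ^ (j + 1) + l) D * (2 : ℝ) ^ (-j) ≤ 3 * u := by
      calc min ((2 : ℝ) ^ (j + 1) + l) D * (2 : ℝ) ^ (-j) ≤ (2 ^ (j + 1) + l) * (2 : ℝ) ^ (-j) := by
            gcongr; exact min_le_left _ _
        _ ≤ (3 * l) * (2 : ℝ) ^ (-j) := by
            gcongr; rw [hj1]; linarith
        _ = 3 * u := by rw [hu, zpow_neg]; ring
    calc (min ((2 : ℝ) ^ (j + 1) + l) D * (2 : ℝ) ^ (-j)) ^ θ ≤ (3 * u) ^ θ :=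
          Real.rpow_le_rpow (by positivity) h4 hθ0.le
      _ = 3 ^ θ * u ^ θ := Real.mul_rpow (by norm_num) hu0.le
      _ ≤ 3 ^ (1 : ℝ) * u ^ (1 / 2 : ℝ) := by
          refine mul_le_mul (Real.rpow_le_rpow_of_exponent_le (by norm_num) (by linarith))
            (Real.rpow_le_rpow_of_exponent_le hu1 hθ) (by positivity) (by positivity)
      _ = _ := by rw [Real.rpow_one]
  have e2 : ((2 : ℝ) ^ (-(1 / 2 : ℝ))) ^ i = ((2 : ℝ) ^ i) ^ (-(1 / 2 : ℝ)) := by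
    rw [← Real.rpow_natCast, ← Real.rpow_mul (by norm_num), ← Real.rpow_natCast 2 i,
      ← Real.rpow_mul (by norm_num)]
    congr 1
    ring
  unfold hh
  calc min (2 * (2 : ℝ) ^ (j + 1)) (2 * l) * (min (2 ^ (j + 1) + l) D) ^ θ * ((2 : ℝ) ^ (-j)) ^ θ
      = min (2 * (2 : ℝ) ^ (j + 1)) (2 * l) *
        ((min (2 ^ (j + 1) + l) D) ^ θ * ((2 : ℝ) ^ (-j)) ^ θ) := by ring
    _ ≤ (4 * 2 ^ j) * (3 * u ^ (1 / 2 : ℝ)) := by
        refine mul_le_mul ?_ e1 ?_ (by positivity)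
        · refine (min_le_left _ _).trans (le_of_eq ?_)
          rw [hj1]; ring
        · have h3 : 0 ≤ min ((2 : ℝ) ^ (j + 1) + l) D := le_min (by positivity) hD.le
          positivity
    _ = 12 * l * u ^ (-(1 / 2 : ℝ)) := by
        have e3 : u ^ (1 / 2 : ℝ) = u * u ^ (-(1 / 2 : ℝ)) := by
          rw [← Real.rpow_one_add' hu0.le (by norm_num)]
          norm_num
        rw [e3, hu]
        field_simp
        ring
    _ ≤ 12 * l * ((2 : ℝ) ^ i) ^ (-(1 / 2 : ℝ)) := by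
        refine mul_le_mul_of_nonneg_left ?_ (by positivity)
        exact Real.rpow_le_rpow_of_nonpos (by positivity) hui (by norm_num)
    _ = _ := by rw [e2]

theorem hh_b {θ l D : ℝ} (hθ0 : 0 < θ) (hθ : θ ≤ 1 / 2) (hl : 0 < l) (hD : 0 < D) {j : ℤ}
    (h : l ≤ (2 : ℝ) ^ j) : hh θ l D j ≤ 6 * l := by
  have hj : (0 : ℝ) < 2 ^ j := by positivity
  have hj1 : (2 : ℝ) ^ (j + 1) = 2 * 2 ^ j := by rw [zpow_add₀ (by norm_num)]; ring
  have h3 : 0 ≤ min ((2 : ℝ) ^ (j + 1) + l) D := le_min (by positivity) hD.le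
  have e1 : (min ((2 : ℝ) ^ (j + 1) + l) D) ^ θ * ((2 : ℝ) ^ (-j)) ^ θ ≤ 3 := by
    rw [← Real.mul_rpow h3 (by positivity)]
    have h4 : min ((2 : ℝ) ^ (j + 1) + l) D * (2 : ℝ) ^ (-j) ≤ 3 := by
      calc min ((2 : ℝ) ^ (j + 1) + l) D * (2 : ℝ) ^ (-j) ≤ (2 ^ (j + 1) + l) * (2 : ℝ) ^ (-j) := by
            gcongr; exact min_le_left _ _
        _ ≤ (3 * 2 ^ j) * (2 : ℝ) ^ (-j) := by
            gcongr; rw [hj1]; linarith
        _ = 3 := by rw [zpow_neg]; field_simp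
    calc (min ((2 : ℝ) ^ (j + 1) + l) D * (2 : ℝ) ^ (-j)) ^ θ ≤ 3 ^ θ :=
          Real.rpow_le_rpow (by positivity) h4 hθ0.le
      _ ≤ 3 ^ (1 : ℝ) := Real.rpow_le_rpow_of_exponent_le (by norm_num) (by linarith)
      _ = _ := by rw [Real.rpow_one]
  unfold hh
  calc min (2 * (2 : ℝ) ^ (j + 1)) (2 * l) * (min (2 ^ (j + 1) + l) D) ^ θ * ((2 : ℝ) ^ (-j)) ^ θ
      = min (2 * (2 : ℝ) ^ (j + 1)) (2 * l) *
        ((min (2 ^ (j + 1) + l) D) ^ θ * ((2 : ℝ) ^ (-j)) ^ θ) := by ring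
    _ ≤ (2 * l) * 3 := mul_le_mul (min_le_right _ _) e1 (by positivity) (by positivity)
    _ = _ := by ring

theorem hh_c {θ l D : ℝ} (hθ0 : 0 < θ) (hl : 0 < l) (hD : 0 < D) {j : ℤ} {i : ℕ}
    (h : D * 2 ^ i ≤ (2 : ℝ) ^ j) : hh θ l D j ≤ 2 * l * ((2 : ℝ) ^ (-θ)) ^ i := by
  have hj : (0 : ℝ) < 2 ^ j := by positivity
  have h3 : 0 ≤ min ((2 : ℝ) ^ (j + 1) + l) D := le_min (by positivity) hD.le
  have e1 : (min ((2 : ℝ) ^ (j + 1) + l) D) ^ θ * ((2 : ℝ) ^ (-j)) ^ θ ≤ ((2 : ℝ) ^ (-θ)) ^ i := by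
    rw [← Real.mul_rpow h3 (by positivity)]
    have h4 : min ((2 : ℝ) ^ (j + 1) + l) D * (2 : ℝ) ^ (-j) ≤ ((2 : ℝ) ^ i)⁻¹ := by
      calc min ((2 : ℝ) ^ (j + 1) + l) D * (2 : ℝ) ^ (-j) ≤ D * (2 : ℝ) ^ (-j) := by
            gcongr; exact min_le_right _ _
        _ ≤ _ := by
            rw [zpow_neg, ← div_eq_mul_inv, ← one_div, div_le_div_iff₀ hj (by positivity), one_mul]
            exact h
    calc (min ((2 : ℝ) ^ (j + 1) + l) D * (2 : ℝ) ^ (-j)) ^ θ ≤ (((2 : ℝ) ^ i)⁻¹) ^ θ :=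
          Real.rpow_le_rpow (by positivity) h4 hθ0.le
      _ = _ := by
          rw [Real.inv_rpow (by positivity), ← Real.rpow_neg (by positivity), ← Real.rpow_natCast 2 i,
            ← Real.rpow_mul (by norm_num), ← Real.rpow_natCast, ← Real.rpow_mul (by norm_num)]
          congr 1
          ring
  unfold hh
  calc min (2 * (2 : ℝ) ^ (j + 1)) (2 * l) * (min (2 ^ (j + 1) + l) D) ^ θ * ((2 : ℝ) ^ (-j)) ^ θ
      = min (2 * (2 : ℝ) ^ (j + 1)) (2 * l) *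
        ((min (2 ^ (j + 1) + l) D) ^ θ * ((2 : ℝ) ^ (-j)) ^ θ) := by ring
    _ ≤ (2 * l) * ((2 : ℝ) ^ (-θ)) ^ i := mul_le_mul (min_le_right _ _) e1 (by positivity) (by positivity)

/-- the constant -/
noncomputable def cθ (θ : ℝ) : ℝ :=
  2 * (12 * (1 - (2 : ℝ) ^ (-(1 / 2 : ℝ)))⁻¹ + 6 + 2 * (1 - (2 : ℝ) ^ (-θ))⁻¹)

theorem geo_pos {θ : ℝ} (hθ : 0 < θ) : 0 < (1 - (2 : ℝ) ^ (-θ))⁻¹ := by
  have h1 : (2 : ℝ) ^ (-θ) < 1 := Real.rpow_lt_one_of_one_lt_of_neg (by norm_num) (by linarith)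
  exact inv_pos.2 (by linarith)

theorem cθ_pos {θ : ℝ} (hθ : 0 < θ) : 0 < cθ θ := by
  unfold cθ
  have h1 := geo_pos (θ := 1 / 2) (by norm_num)
  have h2 := geo_pos hθ
  positivity

theorem hh_sum {θ l D : ℝ} (hθ0 : 0 < θ) (hθ : θ ≤ 1 / 2) (hl : 0 < l) (hlD : l ≤ D) :
    ∑' j : ℤ, ENNReal.ofReal (hh θ l D j) ≤ ENNReal.ofReal (cθ θ * l * (1 + Real.log (D / l))) := by
  have hD : 0 < D := by linarith
  have hDl : 1 ≤ D / l := by rw [one_le_div hl]; exact hlD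
  have hlog : 0 ≤ Real.log (D / l) := Real.log_nonneg hDl
  obtain ⟨j0, hj0, hj0'⟩ := exists_mem_Ico_zpow (x := l) (y := (2 : ℝ)) hl (by norm_num)
  obtain ⟨K, hK1, hK2⟩ := exists_pow2 hDl
  have hA := geo_pos (θ := 1 / 2) (by norm_num)
  have hB := geo_pos hθ0
  refine (three_sum (j0 := j0) (K := K) (a := fun i => ENNReal.ofReal (12 * l) *
    ENNReal.ofReal (((2 : ℝ) ^ (-(1 / 2 : ℝ))) ^ i)) (b := ENNReal.ofReal (6 * l))
    (c := fun i => ENNReal.ofReal (2 * l) * ENNReal.ofReal (((2 : ℝ) ^ (-θ)) ^ i))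
    (fun i => ?_) (fun i _ => ?_) (fun i => ?_)).trans ?_
  · rw [← ENNReal.ofReal_mul (by positivity)]
    refine ENNReal.ofReal_le_ofReal (hh_a hθ0 hθ hl hD ?_)
    rw [zpow_sub₀ (by norm_num), zpow_natCast, div_mul_cancel₀ _ (by positivity)]
    exact hj0
  · refine ENNReal.ofReal_le_ofReal (hh_b hθ0 hθ hl hD ?_)
    rw [zpow_add₀ (by norm_num), zpow_natCast]
    have h1 : (1 : ℝ) ≤ 2 ^ i := one_le_pow₀ (by norm_num)
    calc l ≤ 2 ^ (j0 + 1) := hj0'.le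
      _ ≤ 2 ^ i * 2 ^ (j0 + 1) := le_mul_of_one_le_left (by positivity) h1
  · rw [← ENNReal.ofReal_mul (by positivity)]
    refine ENNReal.ofReal_le_ofReal (hh_c hθ0 hl hD ?_)
    rw [zpow_add₀ (by norm_num), zpow_add₀ (by norm_num), zpow_natCast, zpow_natCast]
    have h1 : D ≤ 2 ^ K * l := by
      rw [div_le_iff₀ hl] at hK1; exact hK1
    calc D * 2 ^ i ≤ (2 ^ K * 2 ^ (j0 + 1)) * 2 ^ i := by
          gcongr
          exact h1.trans (by gcongr)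
      _ = _ := by ring
  · rw [ENNReal.tsum_mul_left, ENNReal.tsum_mul_left, geo_sum (by norm_num), geo_sum hθ0,
      ← ENNReal.ofReal_mul (by positivity), ← ENNReal.ofReal_mul (by positivity),
      ← ENNReal.ofReal_natCast K, ← ENNReal.ofReal_mul (Nat.cast_nonneg K),
      ← ENNReal.ofReal_add (by positivity) (by positivity),
      ← ENNReal.ofReal_add (by positivity) (by positivity)]
    refine ENNReal.ofReal_le_ofReal ?_
    set A : ℝ := (1 - (2 : ℝ) ^ (-(1 / 2 : ℝ)))⁻¹ with hAd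
    set B : ℝ := (1 - (2 : ℝ) ^ (-θ))⁻¹ with hBd
    set L : ℝ := Real.log (D / l) with hL
    have e : cθ θ = 2 * (12 * A + 6 + 2 * B) := rfl
    rw [e]
    have hK0 : (0 : ℝ) ≤ K := Nat.cast_nonneg K
    have h1 : 12 * A ≤ 12 * A * (2 * (1 + L)) := le_mul_of_one_le_right (by positivity) (by linarith)
    have h2 : 2 * B ≤ 2 * B * (2 * (1 + L)) := le_mul_of_one_le_right (by positivity) (by linarith)
    have h3 : (K : ℝ) * 6 ≤ 6 * (2 * (1 + L)) := by linarith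
    calc 12 * l * A + K * (6 * l) + 2 * l * B = l * (12 * A + K * 6 + 2 * B) := by ring
      _ ≤ l * (12 * A * (2 * (1 + L)) + 6 * (2 * (1 + L)) + 2 * B * (2 * (1 + L))) := by gcongr
      _ = _ := by ring

end Pool.Agent.K4H46.US
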