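import Mathlib
import Pool.Agent.K4H45.BL.End
import Pool.Agent.K4H46.US.Bx
import Pool.Agent.K4H46.US.Su2

set_option autoImplicit false

/-! The estimate for moving rectangles of a fixed shape. -/

namespace Pool.Agent.K4H46.US

open MeasureTheory Set Metric
open scoped ENNReal NNReal
open Pool.Agent.H810R3.Tub (Vec Space nor box dir Fb wv wv_pos)
open Pool.Agent.K4H45.BL (Fb_split vd vd_pos)

/-- the gauge constant -/
noncomputable def Ga (m : ℕ) (σ N : ℝ) : ℝ :=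
  2 ^ (m + 1) * (2 * 4 ^ (m + 1) * 12 ^ (m + 1)) * (4 * (1 + Real.log N)) /
    (vd (m + 1) * (σ / N) ^ (m + 1))

theorem wR_meas {d : ℕ} (e : OrthonormalBasis (Fin d) ℝ (Vec d)) {c : ℝ → Vec d} (hc : Measurable c)
    {w : ℝ → ℝ≥0∞} (hw : Measurable w) (ρ : Fin d → ℝ) :
    Measurable fun y : Space d => w y.snd * (Rc e (c y.snd) ρ).indicator (fun _ => 1) y.fst := by
  have hRm : MeasurableSet {p : Vec d × ℝ | p.1 ∈ Rc e (c p.2) ρ} := by
    have : {p : Vec d × ℝ | p.1 ∈ Rc e (c p.2) ρ} =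
        ⋂ k, {p : Vec d × ℝ | |e.repr (p.1 - c p.2) k| ≤ ρ k} := by
      ext p; simp [Rc]
    rw [this]
    refine MeasurableSet.iInter fun k => measurableSet_le ?_ measurable_const
    exact ((repr_meas e k).comp (measurable_fst.sub (hc.comp measurable_snd))).abs
  have hfs : Measurable fun y : Space d => (y.fst, y.snd) :=
    (WithLp.volume_preserving_ofLp (Vec d) ℝ).measurable
  have h1 : Measurable fun p : Vec d × ℝ =>
      {p : Vec d × ℝ | p.1 ∈ Rc e (c p.2) ρ}.indicator (fun _ => (1 : ℝ≥0∞)) p :=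
    measurable_const.indicator hRm
  exact (hw.comp (measurable_snd.comp hfs)).mul (h1.comp hfs)

theorem shape {m : ℕ} {N σ : ℝ} (hN : 1 ≤ N) (hσ : 0 < σ) (hσ1 : σ ≤ 1) {ι : Type} [Fintype ι]
    {ω : ι → Vec (m + 1)} {f : ι → Fin (m + 1) → Space (m + 1)} (hω : ∀ i, ‖ω i‖ ≤ 1)
    (hsep : ∀ i j, i ≠ j → σ / N ≤ ‖ω i - ω j‖)
    (hf : ∀ i, Orthonormal ℝ (Fin.cons (nor (ω i)) (f i) : Fin (m + 1 + 1) → Space (m + 1)))
    (a : ι → Space (m + 1)) (e : OrthonormalBasis (Fin (m + 1)) ℝ (Vec (m + 1)))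
    {c : ℝ → Vec (m + 1)} (hc : Measurable c) {w : ℝ → ℝ≥0∞} (hw : Measurable w)
    (hfin : ∫⁻ t, w t ^ (m + 2) ≠ ∞) {ρ : Fin (m + 1) → ℝ} (hρ : ∀ k, 0 ≤ ρ k) {l : ℝ}
    (hl : l = (2 * ((m + 1 : ℕ) : ℝ) + 1) * N) :
    (∫⁻ y, Fb N ω f a y * (w y.snd * (Rc e (c y.snd) ρ).indicator (fun _ => 1) y.fst)) ^ (m + 2) ≤
      (Fintype.card ι : ℝ≥0∞) ^ (m + 1) * (ENNReal.ofReal (Ga m σ N) *
        ((∏ k, ENNReal.ofReal (min (2 * ρ k) (2 * l))) ^ (m + 2) *
          (ENNReal.ofReal (cut (l * N) fun k => ρ k + l) * ∫⁻ t, w t ^ (m + 2)))) := by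
  classical
  have hN0 : 0 < N := by linarith
  have hlN : 0 ≤ Real.log N := Real.log_nonneg hN
  have hl0 : 0 < l := by rw [hl]; positivity
  set D : ℝ := l * N with hD
  have hlD : l ≤ D := by rw [hD]; exact le_mul_of_one_le_right hl0.le hN
  obtain ⟨J, hJ1, hJ2⟩ := exists_pow2 (x := 2 * N) (by linarith)
  have hJ3 : (J : ℝ) + 1 ≤ 4 * (1 + Real.log N) := by
    rw [Real.log_mul (by norm_num) hN0.ne'] at hJ2
    have := Real.log_two_lt_d9
    linarith
  have hdd : (2 * ((m + 1 : ℕ) : ℝ) + 1) * N = l := hl.symm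
  have hDD : (2 * ((m + 1 : ℕ) : ℝ) + 1) * N ^ 2 = D := by rw [hD, hl]; ring
  set gm := fun y : Space (m + 1) => w y.snd * (Rc e (c y.snd) ρ).indicator (fun _ => (1 : ℝ≥0∞)) y.fst
    with hgm
  have hgmm : Measurable gm := wR_meas e hc hw ρ
  set X : ι → ℝ≥0∞ := fun i => ∫⁻ y in box N (nor (ω i)) (f i) (a i), gm y with hX
  set S : ι → Set (ℝ × Vec (m + 1)) := fun i => Sx e c (fun k => ρ k + l) (a i).fst (a i).snd D with hS
  set c0 : ℝ≥0∞ := ∏ k, ENNReal.ofReal (min (2 * ρ k) (2 * l)) with hc0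
  set B : ι → Set (Vec (m + 1)) := fun i => ball (-((2 : ℝ) • ω i)) (σ / N) with hB
  have hσN : 0 < σ / N := by positivity
  have hσN1 : σ / N ≤ 1 / N := by gcongr
  have h1N : 1 / N ≤ 1 := by rw [div_le_one hN0]; exact hN
  have hXv : ∀ i, ∀ v ∈ B i, X i ≤ c0 * Mv w (S i) v := by
    intro i v hv
    have h1 : ‖v + (2 : ℝ) • ω i‖ ≤ 1 / N := by
      rw [hB, mem_ball, dist_eq_norm, sub_neg_eq_add] at hv
      exact hv.le.trans hσN1
    have h2 := bx_int hN (hω i) (hf i) (a i) h1 e hc hw ρ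
    rw [hdd, hDD] at h2
    exact h2
  have hvolB : ∀ i, volume (B i) = ENNReal.ofReal (vd (m + 1) * (σ / N) ^ (m + 1)) := by
    intro i
    rw [hB, Measure.addHaar_ball_of_pos _ _ hσN, finrank_euclideanSpace_fin, mul_comm (vd (m + 1)),
      ENNReal.ofReal_mul (by positivity)]
    congr 1
    rw [vd, ENNReal.ofReal_toReal measure_ball_lt_top.ne]
  set β : ℝ := vd (m + 1) * (σ / N) ^ (m + 1) with hβ
  have hβ0 : 0 < β := mul_pos (vd_pos _) (by positivity)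
  have hXB : ∀ i, X i ^ (m + 2) * ENNReal.ofReal β ≤ c0 ^ (m + 2) *
      ∫⁻ v in B i, Mv w (S i) v ^ (m + 2) := by
    intro i
    calc X i ^ (m + 2) * ENNReal.ofReal β = ∫⁻ _v in B i, X i ^ (m + 2) := by
          rw [setLIntegral_const, hvolB]
      _ ≤ ∫⁻ v in B i, c0 ^ (m + 2) * Mv w (S i) v ^ (m + 2) := by
          refine setLIntegral_mono' measurableSet_ball fun v hv => ?_
          rw [← mul_pow]
          exact pow_le_pow_left₀ zero_le (hXv i v hv) _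
      _ = _ := lintegral_const_mul' _ _ (ENNReal.pow_ne_top
          (ENNReal.prod_ne_top fun k _ => ENNReal.ofReal_ne_top))
  have hmo := mo e hc hw hfin (r := fun k => ρ k + l) (N := l) (D := D) (J := J) hl0
    (fun k => by linarith [hρ k]) hlD (by
      rw [hD]
      calc 2 * (l * N) = (2 * N) * l := by ring
        _ ≤ 2 ^ J * l := by gcongr) (fun i => (a i).fst) (fun i => (a i).snd) (B := B)
    (fun i => measurableSet_ball) (fun i j hij => by
      refine ball_disjoint_ball ?_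
      rw [dist_eq_norm]
      have h1 := hsep i j hij
      have h2 : ‖-((2 : ℝ) • ω i) - -((2 : ℝ) • ω j)‖ = 2 * ‖ω i - ω j‖ := by
        have : -((2 : ℝ) • ω i) - -((2 : ℝ) • ω j) = (-(2 : ℝ)) • (ω i - ω j) := by module
        rw [this, norm_smul]
        norm_num
      rw [h2]
      linarith) (fun i v hv => by
      rw [hB, mem_ball, dist_eq_norm, sub_neg_eq_add] at hv
      rw [mem_closedBall, dist_zero_right]
      have h2 : v = (v + (2 : ℝ) • ω i) - (2 : ℝ) • ω i := by abel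
      rw [h2]
      refine (norm_sub_le _ _).trans ?_
      rw [norm_smul, Real.norm_eq_abs, abs_of_pos (by norm_num : (0 : ℝ) < 2)]
      linarith [hω i, hσN1.trans h1N])
  have hcut : 0 ≤ cut D fun k => ρ k + l := Finset.prod_nonneg fun k _ =>
    le_min (by linarith [hρ k]) (by positivity)
  have hmo2 : ∑ i, ∫⁻ v in B i, Mv w (S i) v ^ (m + 2) ≤ ENNReal.ofReal β * (ENNReal.ofReal (Ga m σ N) *
      (ENNReal.ofReal (cut D fun k => ρ k + l) * ∫⁻ t, w t ^ (m + 2))) := by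
    refine hmo.trans ?_
    have e2 : (2 : ℝ≥0∞) ^ (m + 1) = ENNReal.ofReal (2 ^ (m + 1)) := by
      rw [ENNReal.ofReal_pow (by norm_num)]; norm_num
    have hGa : 0 ≤ Ga m σ N := by unfold Ga; positivity
    set ct : ℝ := cut D fun k => ρ k + l with hct
    have e3 : β * Ga m σ N = 2 ^ (m + 1) * (2 * 4 ^ (m + 1) * 12 ^ (m + 1)) *
        (4 * (1 + Real.log N)) := by
      unfold Ga
      rw [← hβ]
      field_simp
    have e5 : 2 ^ (m + 1) * ENNReal.ofReal (2 * 4 ^ (m + 1) * (12 ^ (m + 1) * ct) * ((J : ℝ) + 1)) ≤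
        ENNReal.ofReal β * (ENNReal.ofReal (Ga m σ N) * ENNReal.ofReal ct) := by
      rw [e2, ← ENNReal.ofReal_mul (by positivity), ← ENNReal.ofReal_mul hGa,
        ← ENNReal.ofReal_mul hβ0.le]
      refine ENNReal.ofReal_le_ofReal ?_
      rw [← mul_assoc β, e3]
      calc 2 ^ (m + 1) * (2 * 4 ^ (m + 1) * (12 ^ (m + 1) * ct) * ((J : ℝ) + 1))
          ≤ 2 ^ (m + 1) * (2 * 4 ^ (m + 1) * (12 ^ (m + 1) * ct) * (4 * (1 + Real.log N))) := by
            gcongr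
        _ = _ := by ring
    calc 2 ^ (m + 1) * (ENNReal.ofReal (2 * 4 ^ (m + 1) * (12 ^ (m + 1) * ct) * ((J : ℝ) + 1)) *
          ∫⁻ t, w t ^ (m + 2)) = (2 ^ (m + 1) * ENNReal.ofReal (2 * 4 ^ (m + 1) *
          (12 ^ (m + 1) * ct) * ((J : ℝ) + 1))) * ∫⁻ t, w t ^ (m + 2) := by ring
      _ ≤ (ENNReal.ofReal β * (ENNReal.ofReal (Ga m σ N) * ENNReal.ofReal ct)) *
          ∫⁻ t, w t ^ (m + 2) := mul_le_mul_left e5 _
      _ = _ := by ring
  have hsum : (∑ i, X i ^ (m + 2)) * ENNReal.ofReal β ≤ (c0 ^ (m + 2) * (ENNReal.ofReal (Ga m σ N) *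
      (ENNReal.ofReal (cut D fun k => ρ k + l) * ∫⁻ t, w t ^ (m + 2)))) * ENNReal.ofReal β := by
    calc (∑ i, X i ^ (m + 2)) * ENNReal.ofReal β = ∑ i, X i ^ (m + 2) * ENNReal.ofReal β :=
          Finset.sum_mul _ _ _
      _ ≤ ∑ i, c0 ^ (m + 2) * ∫⁻ v in B i, Mv w (S i) v ^ (m + 2) :=
          Finset.sum_le_sum fun i _ => hXB i
      _ = c0 ^ (m + 2) * ∑ i, ∫⁻ v in B i, Mv w (S i) v ^ (m + 2) := (Finset.mul_sum _ _ _).symm
      _ ≤ _ := by
          refine (mul_le_mul_right hmo2 _).trans (le_of_eq ?_)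
          ring
  have hsum2 : ∑ i, X i ^ (m + 2) ≤ c0 ^ (m + 2) * (ENNReal.ofReal (Ga m σ N) *
      (ENNReal.ofReal (cut D fun k => ρ k + l) * ∫⁻ t, w t ^ (m + 2))) := by
    refine (ENNReal.mul_le_mul_iff_left ?_ ENNReal.ofReal_ne_top).1 hsum
    rw [ne_eq, ENNReal.ofReal_eq_zero, not_le]
    exact hβ0
  have hpm : (∑ i, X i) ^ (m + 2) ≤ (Fintype.card ι : ℝ≥0∞) ^ (m + 1) * ∑ i, X i ^ (m + 2) := by
    have h4 := ENNReal.rpow_sum_le_const_mul_sum_rpow (Finset.univ : Finset ι) X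
      (p := ((m + 2 : ℕ) : ℝ)) (by push_cast; linarith [(Nat.cast_nonneg m : (0 : ℝ) ≤ m)])
    have e4 : (((m + 2 : ℕ) : ℝ) - 1) = ((m + 1 : ℕ) : ℝ) := by push_cast; ring
    rw [e4, Finset.card_univ] at h4
    simp_rw [ENNReal.rpow_natCast] at h4
    exact h4
  have hsplit : ∫⁻ y, Fb N ω f a y * gm y = ∑ i, X i := Fb_split N ω f a hgmm
  rw [hsplit]
  refine hpm.trans ((mul_le_mul_right hsum2 _).trans (le_of_eq ?_))
  ring

end Pool.Agent.K4H46.US
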