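import Mathlib
import Pool.Agent.K4H46.MO.Dy
import Pool.Agent.K4H46.US.Sp

set_option autoImplicit false

/-! Weights whose slices are nonincreasing away from a centre. -/

namespace Pool.Agent.K4H46.US

open MeasureTheory Set Metric
open scoped ENNReal NNReal
open Pool.Agent.H810R3.Tub (Vec Space nor box dir Fb wv wv_pos)
open Pool.Agent.K4H45.BL (Fb_split vd vd_pos)
open Pool.Agent.K4H46.MO (dsp abs_dsp exists_dsp uIcc_shift)

variable {d : ℕ}

/-- the slices of the weight are nonincreasing away from the centre, in all directions of the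
basis -/
def Unim (e : OrthonormalBasis (Fin d) ℝ (Vec d)) (c : ℝ → Vec d) (W : Space d → ℝ≥0∞) : Prop :=
  ∀ (t : ℝ) (x y : Vec d), (∀ k, e.repr x k ∈ uIcc (e.repr (c t) k) (e.repr y k)) →
    W (pt y t) ≤ W (pt x t)

/-- the corner -/
noncomputable def cv (e : OrthonormalBasis (Fin d) ℝ (Vec d)) (c : ℝ → Vec d)
    (p : Fin d → Bool × ℤ) (t : ℝ) : Vec d := c t + e.repr.symm (WithLp.toLp 2 fun k => dsp (p k))

theorem cv_repr (e : OrthonormalBasis (Fin d) ℝ (Vec d)) (c : ℝ → Vec d)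
    (p : Fin d → Bool × ℤ) (t : ℝ) (k : Fin d) :
    e.repr (cv e c p t) k = e.repr (c t) k + dsp (p k) := by
  unfold cv
  rw [map_add, LinearIsometryEquiv.apply_symm_apply]
  rfl

/-- the value at the corner -/
noncomputable def wc (e : OrthonormalBasis (Fin d) ℝ (Vec d)) (c : ℝ → Vec d) (W : Space d → ℝ≥0∞)
    (p : Fin d → Bool × ℤ) (t : ℝ) : ℝ≥0∞ := W (pt (cv e c p t) t)

theorem cover {e : OrthonormalBasis (Fin d) ℝ (Vec d)} {c : ℝ → Vec d} {W : Space d → ℝ≥0∞}
    (hW : Unim e c W) (t : ℝ) {x : Vec d} (h : ∀ k, e.repr x k ≠ e.repr (c t) k) :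
    ∃ p : Fin d → Bool × ℤ, W (pt x t) ≤ wc e c W p t ∧
      x ∈ Rc e (c t) fun k => (2 : ℝ) ^ ((p k).2 + 1) := by
  choose p hp1 hp2 using fun k => exists_dsp (sub_ne_zero.2 (h k))
  refine ⟨p, ?_, fun k => ?_⟩
  · refine hW t _ _ fun k => ?_
    rw [cv_repr]
    have := uIcc_shift (a := e.repr (c t) k) (hp1 k)
    simpa using this
  · rw [map_sub]
    show |e.repr x k - e.repr (c t) k| ≤ _
    exact (hp2 k).le

theorem ae_coord (e : OrthonormalBasis (Fin d) ℝ (Vec d)) (z : Vec d) :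
    ∀ᵐ x : Vec d, ∀ k, e.repr x k ≠ e.repr z k := by
  rw [ae_all_iff]
  intro k
  rw [ae_iff]
  classical
  have h1 := vol_box e (fun i => if i = k then {e.repr z k} else univ) (fun i => by
    split_ifs
    · exact measurableSet_singleton _
    · exact MeasurableSet.univ)
  refine measure_mono_null ?_ (h1.trans (Finset.prod_eq_zero (Finset.mem_univ k) (by simp)))
  intro x hx i
  by_cases hi : i = k
  · subst hi
    simpa using hx
  · simp [hi]

theorem wc_norm {e : OrthonormalBasis (Fin d) ℝ (Vec d)} {c : ℝ → Vec d} {W : Space d → ℝ≥0∞}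
    (hW : Unim e c W) (n : ℕ) (p : Fin d → Bool × ℤ) (t : ℝ) :
    wc e c W p t ^ n ≤ ENNReal.ofReal (∏ k, (2 : ℝ) ^ (-(p k).2)) * ∫⁻ x, W (pt x t) ^ n := by
  set B : Set (Vec d) := {x | ∀ k, e.repr x k ∈
    uIcc (e.repr (c t) k) (e.repr (c t) k + dsp (p k))} with hB
  have hvol : volume B = ENNReal.ofReal (∏ k, (2 : ℝ) ^ (p k).2) := by
    rw [hB, vol_box e _ fun k => measurableSet_uIcc, ENNReal.ofReal_prod_of_nonneg
      fun k _ => by positivity]
    refine Finset.prod_congr rfl fun k _ => ?_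
    rw [Real.volume_interval, add_sub_cancel_left, abs_dsp]
  have hBm : MeasurableSet B := by
    have : B = ⋂ k, {x | e.repr x k ∈ uIcc (e.repr (c t) k) (e.repr (c t) k + dsp (p k))} := by
      ext x; simp [hB]
    rw [this]
    exact MeasurableSet.iInter fun k => measurableSet_uIcc.preimage (repr_meas e k)
  have h1 : wc e c W p t ^ n * volume B ≤ ∫⁻ x, W (pt x t) ^ n := by
    calc wc e c W p t ^ n * volume B = ∫⁻ _x in B, wc e c W p t ^ n := by rw [setLIntegral_const]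
      _ ≤ ∫⁻ x in B, W (pt x t) ^ n := by
          refine setLIntegral_mono' hBm fun x hx => pow_le_pow_left₀ zero_le ?_ n
          refine hW t x _ fun k => ?_
          rw [cv_repr]
          exact hx k
      _ ≤ _ := setLIntegral_le_lintegral _ _
  have hpos : (0 : ℝ) < ∏ k, (2 : ℝ) ^ (p k).2 := Finset.prod_pos fun k _ => by positivity
  calc wc e c W p t ^ n = ENNReal.ofReal (∏ k, (2 : ℝ) ^ (-(p k).2)) *
        (wc e c W p t ^ n * volume B) := by
        rw [hvol, mul_comm (wc e c W p t ^ n), ← mul_assoc,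
          ← ENNReal.ofReal_mul (Finset.prod_nonneg fun k _ => by positivity)]
        have : (∏ k, (2 : ℝ) ^ (-(p k).2)) * ∏ k, (2 : ℝ) ^ (p k).2 = 1 := by
          rw [← Finset.prod_mul_distrib]
          refine Finset.prod_eq_one fun k _ => ?_
          rw [zpow_neg]
          exact inv_mul_cancel₀ (by positivity)
        rw [this, ENNReal.ofReal_one, one_mul]
    _ ≤ _ := mul_le_mul_right h1 _

theorem cv_meas (e : OrthonormalBasis (Fin d) ℝ (Vec d)) {c : ℝ → Vec d} (hc : Measurable c)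
    (p : Fin d → Bool × ℤ) : Measurable (cv e c p) := hc.add_const _

theorem wc_meas (e : OrthonormalBasis (Fin d) ℝ (Vec d)) {c : ℝ → Vec d} (hc : Measurable c)
    {W : Space d → ℝ≥0∞} (hW : Measurable W) (p : Fin d → Bool × ℤ) : Measurable (wc e c W p) :=
  hW.comp (pt_meas.comp ((cv_meas e hc p).prodMk measurable_id))

/-- the constant -/
noncomputable def ku (m : ℕ) (σ N : ℝ) : ℝ :=
  Ga m σ N * (2 * (cθ (1 / ((m + 2 : ℕ) : ℝ)) * ((2 * ((m + 1 : ℕ) : ℝ) + 1) * N) *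
    (1 + Real.log N))) ^ ((m + 1) * (m + 2))

/-- **The critical inequality.** -/
theorem crit {m : ℕ} {N σ : ℝ} (hN : 1 ≤ N) (hσ : 0 < σ) (hσ1 : σ ≤ 1) {ι : Type} [Fintype ι]
    {ω : ι → Vec (m + 1)} {f : ι → Fin (m + 1) → Space (m + 1)} (hω : ∀ i, ‖ω i‖ ≤ 1)
    (hsep : ∀ i j, i ≠ j → σ / N ≤ ‖ω i - ω j‖)
    (hf : ∀ i, Orthonormal ℝ (Fin.cons (nor (ω i)) (f i) : Fin (m + 1 + 1) → Space (m + 1)))
    (a : ι → Space (m + 1)) {e : OrthonormalBasis (Fin (m + 1)) ℝ (Vec (m + 1))}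
    {c : ℝ → Vec (m + 1)} (hc : Measurable c) {W : Space (m + 1) → ℝ≥0∞} (hW : Measurable W)
    (hWu : Unim e c W) :
    (∫⁻ y, Fb N ω f a y * W y) ^ (m + 2) ≤
      (Fintype.card ι : ℝ≥0∞) ^ (m + 1) * (ENNReal.ofReal (ku m σ N) * ∫⁻ y, W y ^ (m + 2)) := by
  classical
  have hN0 : 0 < N := by linarith
  have hlN : 0 ≤ Real.log N := Real.log_nonneg hN
  set l : ℝ := (2 * ((m + 1 : ℕ) : ℝ) + 1) * N with hl
  have hl0 : 0 < l := by rw [hl]; positivity
  set D : ℝ := l * N with hD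
  have hD0 : 0 < D := by positivity
  have hlD : l ≤ D := by rw [hD]; exact le_mul_of_one_le_right hl0.le hN
  set n : ℝ := ((m + 2 : ℕ) : ℝ) with hn
  have hn0 : 0 < n := by rw [hn]; exact_mod_cast (by omega : 0 < m + 2)
  have hn2 : 2 ≤ n := by rw [hn]; exact_mod_cast (by omega : 2 ≤ m + 2)
  set θ : ℝ := 1 / n with hθ
  have hθ0 : 0 < θ := by positivity
  have hθ2 : θ ≤ 1 / 2 := one_div_le_one_div_of_le (by norm_num) hn2
  have hGa : 0 < Ga m σ N := by
    unfold Ga
    have := vd_pos (m + 1)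
    positivity
  have hku : 0 < ku m σ N := by
    unfold ku
    have := cθ_pos hθ0
    rw [hθ, hn] at this
    positivity
  set M : ℝ≥0∞ := ∫⁻ y, W y ^ (m + 2) with hM
  rcases isEmpty_or_nonempty ι with hι | hι
  · have : ∀ y, Fb N ω f a y = 0 := fun y => by unfold Fb; exact Finset.sum_of_isEmpty _
    simp [this]
  have hcard : (Fintype.card ι : ℝ≥0∞) ≠ 0 := by
    have := Fintype.card_pos (α := ι)
    exact_mod_cast this.ne'
  by_cases hMt : M = ∞
  · rw [hMt, ENNReal.mul_top (by rw [ne_eq, ENNReal.ofReal_eq_zero, not_le]; exact hku),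
      ENNReal.mul_top (pow_ne_zero _ hcard)]
    exact le_top
  -- the pieces
  have hMs : M = ∫⁻ t, ∫⁻ x, W (pt x t) ^ (m + 2) := sp_lint (hW.pow_const _)
  have hwn : ∀ p : Fin (m + 1) → Bool × ℤ, ∫⁻ t, wc e c W p t ^ (m + 2) ≤
      ENNReal.ofReal (∏ k, (2 : ℝ) ^ (-(p k).2)) * M := by
    intro p
    refine (lintegral_mono fun t => wc_norm hWu (m + 2) p t).trans (le_of_eq ?_)
    rw [lintegral_const_mul' _ _ ENNReal.ofReal_ne_top, hMs]
  set P : (Fin (m + 1) → Bool × ℤ) → Space (m + 1) → ℝ≥0∞ := fun p y => wc e c W p y.snd *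
    (Rc e (c y.snd) fun k => (2 : ℝ) ^ ((p k).2 + 1)).indicator (fun _ => 1) y.fst with hP
  have hPm : ∀ p, Measurable (P p) := fun p => wR_meas e hc (wc_meas e hc hW p) _
  have hFm : Measurable (Fb N ω f a) := Pool.Agent.H810R3.Tub.Fb_measurable N ω f a
  have h1 : ∫⁻ y, Fb N ω f a y * W y ≤ ∑' p, ∫⁻ y, Fb N ω f a y * P p y := by
    have hFP : ∀ p, Measurable fun y => Fb N ω f a y * P p y := fun p => hFm.mul (hPm p)
    have hFW : Measurable fun y => Fb N ω f a y * W y := hFm.mul hW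
    have hFS : Measurable fun y => ∑' p, Fb N ω f a y * P p y := Measurable.tsum hFP
    rw [← lintegral_tsum fun p => (hFP p).aemeasurable, sp_lint hFW, sp_lint hFS]
    refine lintegral_mono fun t => lintegral_mono_ae ?_
    filter_upwards [ae_coord e (c t)] with x hx
    obtain ⟨p, hp1, hp2⟩ := cover hWu t hx
    refine le_trans ?_ (ENNReal.le_tsum p)
    refine mul_le_mul_right ?_ _
    have e1 : P p (pt x t) = wc e c W p t := by
      simp only [hP]
      have e2 : (pt x t).fst = x := rfl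
      have e3 : (pt x t).snd = t := rfl
      rw [e2, e3, indicator_of_mem hp2, mul_one]
    rw [e1]
    exact hp1
  set Z : ℝ≥0∞ := (Fintype.card ι : ℝ≥0∞) ^ (m + 1) * (ENNReal.ofReal (Ga m σ N) * M) with hZ
  have h2 : ∀ p, ∫⁻ y, Fb N ω f a y * P p y ≤ Z ^ θ * ∏ k, ENNReal.ofReal (hh θ l D (p k).2) := by
    intro p
    have h3 := shape hN hσ hσ1 hω hsep hf a e hc (wc_meas e hc hW p)
      (ne_top_of_le_ne_top (ENNReal.mul_ne_top ENNReal.ofReal_ne_top hMt) (hwn p))
      (ρ := fun k => (2 : ℝ) ^ ((p k).2 + 1)) (fun k => by positivity) hl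
    rw [← hD] at h3
    have h4 : (∫⁻ y, Fb N ω f a y * P p y) ^ (m + 2) ≤
        Z * (∏ k, ENNReal.ofReal (hh θ l D (p k).2)) ^ (m + 2) := by
      refine h3.trans ?_
      set c0 : ℝ≥0∞ := ∏ k, ENNReal.ofReal (min (2 * (2 : ℝ) ^ ((p k).2 + 1)) (2 * l)) with hc0
      set ct : ℝ := cut D fun k => (2 : ℝ) ^ ((p k).2 + 1) + l with hct
      have hct0 : 0 ≤ ct := Finset.prod_nonneg fun k _ => le_min (by positivity) hD0.le
      have e4 : (∏ k, ENNReal.ofReal (hh θ l D (p k).2)) ^ (m + 2) = c0 ^ (m + 2) *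
          (ENNReal.ofReal ct * ENNReal.ofReal (∏ k, (2 : ℝ) ^ (-(p k).2))) := by
        have e5 : ∀ k, ENNReal.ofReal (hh θ l D (p k).2) ^ (m + 2) =
            ENNReal.ofReal (min (2 * (2 : ℝ) ^ ((p k).2 + 1)) (2 * l)) ^ (m + 2) *
            (ENNReal.ofReal (min ((2 : ℝ) ^ ((p k).2 + 1) + l) D) *
              ENNReal.ofReal ((2 : ℝ) ^ (-(p k).2))) := by
          intro k
          have q1 : (0 : ℝ) ≤ min (2 * (2 : ℝ) ^ ((p k).2 + 1)) (2 * l) :=
            le_min (by positivity) (by positivity)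
          have q2 : (0 : ℝ) ≤ min ((2 : ℝ) ^ ((p k).2 + 1) + l) D := le_min (by positivity) hD0.le
          have q3 : (0 : ℝ) ≤ (2 : ℝ) ^ (-(p k).2) := by positivity
          have q4 : ∀ x : ℝ, 0 ≤ x → (x ^ θ) ^ (m + 2) = x := by
            intro x hx
            rw [← Real.rpow_natCast, ← Real.rpow_mul hx, ← hn, hθ, one_div_mul_cancel hn0.ne',
              Real.rpow_one]
          unfold hh
          rw [← ENNReal.ofReal_pow (by positivity), mul_pow, mul_pow, q4 _ q2, q4 _ q3,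
            ENNReal.ofReal_mul (by positivity), ENNReal.ofReal_mul (by positivity),
            ENNReal.ofReal_pow q1, mul_assoc]
        rw [← Finset.prod_pow, Finset.prod_congr rfl fun k _ => e5 k, Finset.prod_mul_distrib,
          Finset.prod_mul_distrib, Finset.prod_pow]
        congr 2
        · rw [hct, cut, ENNReal.ofReal_prod_of_nonneg fun k _ => le_min (by positivity) hD0.le]
        · rw [ENNReal.ofReal_prod_of_nonneg fun k _ => by positivity]
      calc (Fintype.card ι : ℝ≥0∞) ^ (m + 1) * (ENNReal.ofReal (Ga m σ N) *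
            (c0 ^ (m + 2) * (ENNReal.ofReal ct * ∫⁻ t, wc e c W p t ^ (m + 2))))
          ≤ (Fintype.card ι : ℝ≥0∞) ^ (m + 1) * (ENNReal.ofReal (Ga m σ N) *
            (c0 ^ (m + 2) * (ENNReal.ofReal ct *
              (ENNReal.ofReal (∏ k, (2 : ℝ) ^ (-(p k).2)) * M)))) := by
            gcongr
            exact hwn p
        _ = _ := by rw [e4, hZ]; ring
    have h5 := ENNReal.rpow_le_rpow h4 hθ0.le
    rw [ENNReal.mul_rpow_of_nonneg _ _ hθ0.le, ← ENNReal.rpow_natCast, ← ENNReal.rpow_natCast,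
      ← ENNReal.rpow_mul, ← ENNReal.rpow_mul, ← hn, hθ, mul_one_div_cancel hn0.ne',
      ENNReal.rpow_one, ENNReal.rpow_one, ← hθ] at h5
    exact h5
  have h3 : ∑' p : Fin (m + 1) → Bool × ℤ, ∏ k, ENNReal.ofReal (hh θ l D (p k).2) ≤
      ENNReal.ofReal (2 * (cθ θ * l * (1 + Real.log N))) ^ (m + 1) := by
    rw [tsum_pi_pow fun q : Bool × ℤ => ENNReal.ofReal (hh θ l D q.2)]
    refine pow_le_pow_left₀ zero_le ?_ _
    rw [ENNReal.tsum_prod' (f := fun q : Bool × ℤ => ENNReal.ofReal (hh θ l D q.2))]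
    simp only [tsum_bool]
    have h4 := hh_sum hθ0 hθ2 hl0 hlD
    have e1 : D / l = N := by rw [hD]; field_simp
    rw [e1] at h4
    refine (add_le_add h4 h4).trans (le_of_eq ?_)
    have := cθ_pos hθ0
    rw [← ENNReal.ofReal_add (by positivity) (by positivity)]
    congr 1
    ring
  have h4 : ∫⁻ y, Fb N ω f a y * W y ≤ Z ^ θ *
      ENNReal.ofReal (2 * (cθ θ * l * (1 + Real.log N))) ^ (m + 1) := by
    refine h1.trans ((ENNReal.tsum_le_tsum h2).trans ?_)
    rw [ENNReal.tsum_mul_left]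
    exact mul_le_mul_right h3 _
  refine (pow_le_pow_left₀ zero_le h4 (m + 2)).trans (le_of_eq ?_)
  have e6 : (Z ^ θ) ^ (m + 2) = Z := by
    rw [← ENNReal.rpow_natCast, ← ENNReal.rpow_mul, ← hn, hθ, one_div_mul_cancel hn0.ne',
      ENNReal.rpow_one]
  have e7 : ENNReal.ofReal (ku m σ N) = ENNReal.ofReal (Ga m σ N) *
      ENNReal.ofReal (2 * (cθ θ * l * (1 + Real.log N))) ^ ((m + 1) * (m + 2)) := by
    have := cθ_pos hθ0
    rw [← ENNReal.ofReal_pow (by positivity), ← ENNReal.ofReal_mul hGa.le]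
    rfl
  rw [mul_pow, e6, e7, ← pow_mul, hZ]
  ring

end Pool.Agent.K4H46.US
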